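import Pool.Agent.Q236.HB.DelFin
import Pool.Agent.W296.HL5

/-!
# Adding few points so that there are few halving lines
-/

set_option autoImplicit false

namespace Pool.Agent.Q236.HB

open Finset Filter
open Pool.Agent.W296.HL (Line GeneralPosition IsBisector gen_of_gp)
open Pool.Agent.H189R2.Lev (ht cr ht_cr)
open Pool.Agent.Results.MP_a08d0a_co.SmoothedLevel (Simple)
open Pool.Agent.Y429.HalvFew (shr shr_inj exists_shear)

variable {n : ℕ}

/-- the added points, on a parabola -/
def zp (X Y : ℝ) (t : ℕ) : ℝ × ℝ := (X + t, Y - (t : ℝ) ^ 2)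

lemma zp_inj (X Y : ℝ) : Function.Injective (zp X Y) := by
  intro s t h
  unfold zp at h
  rw [Prod.mk.injEq] at h
  have : (s : ℝ) = t := by linarith [h.1]
  exact_mod_cast this

/-- the data of the position of the added points relative to the given ones -/
structure Good (a B : Fin n → ℝ) (X Y : ℝ) (N : ℕ) : Prop where
  left : ∀ i, a i ≤ X
  low : ∀ i, B i < Y
  abv : ∀ i j, a j < a i → ∀ t ∈ range (N + 1),
    ht a B i (cr a B i j) < (X + (t : ℝ)) * cr a B i j + (Y - (t : ℝ) ^ 2)

lemma exists_good (a B : Fin n → ℝ) (N : ℕ) : ∃ X Y : ℝ, Good a B X Y N := by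
  obtain ⟨X, hX⟩ : ∃ X : ℝ, ∀ i, a i ≤ X := by
    have : ∀ᶠ X : ℝ in atTop, ∀ i, a i ≤ X := by
      rw [eventually_all]
      exact fun i => eventually_ge_atTop _
    exact this.exists
  obtain ⟨Y, hY⟩ : ∃ Y : ℝ, (∀ i, B i < Y) ∧ ∀ i j, ∀ t ∈ range (N + 1),
      ht a B i (cr a B i j) - (X + (t : ℝ)) * cr a B i j + (t : ℝ) ^ 2 < Y := by
    have : ∀ᶠ Y : ℝ in atTop, (∀ i, B i < Y) ∧ ∀ i j, ∀ t ∈ range (N + 1),
        ht a B i (cr a B i j) - (X + (t : ℝ)) * cr a B i j + (t : ℝ) ^ 2 < Y := by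
      apply Eventually.and
      · rw [eventually_all]
        exact fun i => eventually_gt_atTop _
      · rw [eventually_all]; intro i
        rw [eventually_all]; intro j
        rw [eventually_all_finset]; intro t _
        exact eventually_gt_atTop _
    exact this.exists
  refine ⟨X, Y, hX, hY.1, ?_⟩
  intro i j _ t ht'
  have := hY.2 i j t ht'
  linarith

/-- lines through two of the given points -/
lemma line_pp {a B : Fin n → ℝ} {i j : Fin n} {u v c : ℝ} (huv : u ≠ 0 ∨ v ≠ 0)
    (hij : a j < a i) (hi : u * a i + v * B i = c) (hj : u * a j + v * B j = c) :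
    v ≠ 0 ∧ ∀ x y : ℝ, u * x + v * y - c =
      v * (x * cr a B i j + y - ht a B i (cr a B i j)) := by
  have hv : v ≠ 0 := by
    rintro rfl
    have hu : u ≠ 0 := by
      rcases huv with h | h
      · exact h
      · exact absurd rfl h
    have : u * a i = u * a j := by linarith
    have := mul_left_cancel₀ hu this
    linarith
  refine ⟨hv, ?_⟩
  intro x y
  have hcr : cr a B i j * v = u := by
    unfold cr
    have h0 : a i - a j ≠ 0 := by linarith
    rw [div_mul_eq_mul_div, div_eq_iff h0]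
    linarith
  unfold ht
  linear_combination (-x + a i) * hcr + hi

/-- lines through two of the added points -/
lemma line_zz {X Y : ℝ} {s t : ℕ} (hst : s ≠ t) {u v c : ℝ} (huv : u ≠ 0 ∨ v ≠ 0)
    (hs : zp X Y s ∈ Line u v c) (ht' : zp X Y t ∈ Line u v c) :
    v ≠ 0 ∧ ∀ x y : ℝ, u * x + v * y - c =
      v * (((s : ℝ) + t) * (x - X) + (y - Y) - s * t) := by
  simp only [Line, zp, Set.mem_ofPred_eq] at hs ht'
  have hst' : (s : ℝ) - t ≠ 0 := by
    intro h
    apply hst
    have : (s : ℝ) = t := by linarith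
    exact_mod_cast this
  have hu : u = v * ((s : ℝ) + t) := by
    have h1 : ((s : ℝ) - t) * u = ((s : ℝ) - t) * (v * ((s : ℝ) + t)) := by
      linear_combination hs - ht'
    exact mul_left_cancel₀ hst' h1
  have hv : v ≠ 0 := by
    rintro rfl
    rw [zero_mul] at hu
    rcases huv with h | h
    · exact h hu
    · exact h rfl
  refine ⟨hv, ?_⟩
  intro x y
  rw [hu] at hs ⊢
  linear_combination hs

open scoped Classical in
/-- the augmented set -/
noncomputable def aug (a B : Fin n → ℝ) (X Y : ℝ) (N : ℕ) : Finset (ℝ × ℝ) :=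
  (univ.image fun i => (a i, B i)) ∪ (Finset.Icc 1 N).image (zp X Y)

lemma mem_aug {a B : Fin n → ℝ} {X Y : ℝ} {N : ℕ} {z : ℝ × ℝ} :
    z ∈ aug a B X Y N ↔ (∃ i, (a i, B i) = z) ∨ ∃ t, (1 ≤ t ∧ t ≤ N) ∧ zp X Y t = z := by
  unfold aug
  simp only [mem_union, mem_image, mem_univ, true_and, mem_Icc]

lemma aug_disj {a B : Fin n → ℝ} {X Y : ℝ} {N M : ℕ} (hG : Good a B X Y M) :
    Disjoint (univ.image fun i => (a i, B i)) ((Finset.Icc 1 N).image (zp X Y)) := by
  rw [disjoint_left]
  intro z hz hz'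
  obtain ⟨i, -, rfl⟩ := mem_image.mp hz
  obtain ⟨t, ht', h⟩ := mem_image.mp hz'
  rw [mem_Icc] at ht'
  have h1 : X + (t : ℝ) = a i := congrArg Prod.fst h
  have h2 := hG.left i
  have h3 : (1 : ℝ) ≤ t := by exact_mod_cast ht'.1
  linarith

lemma card_aug {a B : Fin n → ℝ} (ha : Function.Injective a) {X Y : ℝ} {N M : ℕ}
    (hG : Good a B X Y M) : #(aug a B X Y N) = n + N := by
  unfold aug
  rw [card_union_of_disjoint (aug_disj hG), card_image_of_injective _ (zp_inj X Y),
    card_image_of_injective, card_univ, Fintype.card_fin, Nat.card_Icc]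
  · omega
  · intro i j h
    exact ha (congrArg Prod.fst h)

/-- the augmented set is in general position -/
lemma gp_aug {a B : Fin n → ℝ} (ha : Function.Injective a) (hS : Simple a B) {X Y : ℝ} {N M : ℕ}
    (hNM : N ≤ M) (hG : Good a B X Y M) : GeneralPosition (aug a B X Y N) := by
  intro u v c huv p hp q hq r hr hpq hpr hqr ⟨h1, h2, h3⟩
  rw [mem_aug] at hp hq hr
  -- two given points and an added one
  have pp : ∀ (i j : Fin n) (t : ℕ), i ≠ j → t ≤ N → (a i, B i) ∈ Line u v c →
      (a j, B j) ∈ Line u v c → zp X Y t ∈ Line u v c → False := by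
    intro i j t hij ht' hi hj hz
    simp only [Line, Set.mem_ofPred_eq] at hi hj hz
    have gen : ∀ i j : Fin n, a j < a i → u * a i + v * B i = c → u * a j + v * B j = c →
        False := by
      intro i j hlt hi hj
      obtain ⟨hv, h⟩ := line_pp (a := a) (B := B) huv hlt hi hj
      have h4 := h (zp X Y t).1 (zp X Y t).2
      rw [hz, sub_self] at h4
      have h5 := (mul_eq_zero.mp h4.symm).resolve_left hv
      have h6 := hG.abv i j hlt t (mem_range.mpr (by omega))
      simp only [zp] at h5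
      linarith
    rcases lt_or_gt_of_ne (ha.ne hij) with h | h
    · exact gen j i h hj hi
    · exact gen i j h hi hj
  have ppp : ∀ i j l : Fin n, i ≠ j → i ≠ l → j ≠ l → (a i, B i) ∈ Line u v c →
      (a j, B j) ∈ Line u v c → (a l, B l) ∈ Line u v c → False := by
    intro i j l hij hil hjl hi hj hl
    simp only [Line, Set.mem_ofPred_eq] at hi hj hl
    have gen : ∀ i j : Fin n, i ≠ j → i ≠ l → j ≠ l → a j < a i → u * a i + v * B i = c →
        u * a j + v * B j = c → False := by
      intro i j hij hil hjl hlt hi hj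
      obtain ⟨hv, h⟩ := line_pp (a := a) (B := B) huv hlt hi hj
      have h4 := h (a l) (B l)
      have h7 := h (a j) (B j)
      rw [hl, sub_self] at h4
      rw [hj, sub_self] at h7
      have h5 := (mul_eq_zero.mp h4.symm).resolve_left hv
      have h6 := (mul_eq_zero.mp h7.symm).resolve_left hv
      refine hS.2 i j l hij hil hjl ⟨cr a B i j, ?_, ?_⟩
      · unfold ht at h6 ⊢; linarith
      · unfold ht at h5 ⊢; linarith
    rcases lt_or_gt_of_ne (ha.ne hij) with h | h
    · exact gen j i hij.symm hjl hil h hj hi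
    · exact gen i j hij hil hjl h hi hj
  have zz : ∀ (s t : ℕ) (i : Fin n), s ≠ t → zp X Y s ∈ Line u v c → zp X Y t ∈ Line u v c →
      (a i, B i) ∈ Line u v c → False := by
    intro s t i hst hs ht' hi
    obtain ⟨hv, h⟩ := line_zz hst huv hs ht'
    simp only [Line, Set.mem_ofPred_eq] at hi
    have h4 := h (a i) (B i)
    rw [hi, sub_self] at h4
    have h5 := (mul_eq_zero.mp h4.symm).resolve_left hv
    have h6 := hG.left i
    have h7 := hG.low i
    have h8 : (0 : ℝ) ≤ s := Nat.cast_nonneg s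
    have h9 : (0 : ℝ) ≤ t := Nat.cast_nonneg t
    have h10 : 0 ≤ ((s : ℝ) + t) * (X - a i) := mul_nonneg (by linarith) (by linarith)
    have h11 : 0 ≤ (s : ℝ) * t := by positivity
    nlinarith
  have zzz : ∀ (s t w : ℕ), s ≠ t → s ≠ w → t ≠ w → zp X Y s ∈ Line u v c →
      zp X Y t ∈ Line u v c → zp X Y w ∈ Line u v c → False := by
    intro s t w hst hsw htw hs ht' hw
    obtain ⟨hv, h⟩ := line_zz hst huv hs ht'
    simp only [Line, zp, Set.mem_ofPred_eq] at hw
    have h4 := h (X + (w : ℝ)) (Y - (w : ℝ) ^ 2)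
    rw [hw, sub_self] at h4
    have h5 := (mul_eq_zero.mp h4.symm).resolve_left hv
    have h6 : ((w : ℝ) - s) * ((w : ℝ) - t) = 0 := by nlinarith
    rcases mul_eq_zero.mp h6 with h | h
    · apply hsw
      have : (s : ℝ) = w := by linarith
      exact_mod_cast this
    · apply htw
      have : (t : ℝ) = w := by linarith
      exact_mod_cast this
  have hne : ∀ {i j : Fin n}, ((a i, B i) : ℝ × ℝ) ≠ (a j, B j) → i ≠ j := by
    rintro i j h rfl; exact h rfl
  have hnz : ∀ {s t : ℕ}, zp X Y s ≠ zp X Y t → s ≠ t := by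
    rintro s t h rfl; exact h rfl
  rcases hp with ⟨i, rfl⟩ | ⟨s, hs, rfl⟩ <;> rcases hq with ⟨j, rfl⟩ | ⟨t, ht', rfl⟩ <;>
    rcases hr with ⟨l, rfl⟩ | ⟨w, hw, rfl⟩
  · exact ppp i j l (hne hpq) (hne hpr) (hne hqr) h1 h2 h3
  · exact pp i j w (hne hpq) hw.2 h1 h2 h3
  · exact pp i l t (hne hpr) ht'.2 h1 h3 h2
  · exact zz t w i (hnz hqr) h2 h3 h1
  · exact pp j l s (hne hqr) hs.2 h2 h3 h1
  · exact zz s w j (hnz hpr) h1 h3 h2
  · exact zz s t l (hnz hpq) h1 h2 h3
  · exact zzz s t w (hnz hpq) (hnz hpr) (hnz hqr) h1 h2 h3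

end Pool.Agent.Q236.HB
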