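import Pool.Agent.Q236.HB.Add

/-!
# Adding few points so that there are few halving lines: counting
-/

set_option autoImplicit false

namespace Pool.Agent.Q236.HB

open Finset Filter
open Pool.Agent.W296.HL (Line GeneralPosition IsBisector gen_of_gp bis_finite)
open Pool.Agent.H189R2.Lev (ht cr ht_cr)
open Pool.Agent.Results.MP_a08d0a_co.SmoothedLevel (Simple)
open Pool.Agent.Y429.HalvFew (shr shr_inj exists_shear)

variable {n : ℕ}

open scoped Classical in
/-- crossings with `w` more lines below than above -/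
noncomputable def Sk (a B : Fin n → ℝ) (w : ℕ) : Finset (Fin n × Fin n) :=
  (pr a).filter fun q => #(lo a B q) = #(up a B q) + w

open scoped Classical in
/-- the bisectors of the augmented set -/
theorem bis_aug {a B : Fin n → ℝ} (ha : Function.Injective a) (hS : Simple a B) {X Y : ℝ}
    {N M : ℕ} (hNM : N ≤ M) (hG : Good a B X Y M) (hn : Even n) (hN : Even N) (hNn : N ≤ n)
    (h0 : 0 < n) :
    {L | IsBisector (aug a B X Y N) L}.ncard ≤ #(Sk a B N) + N := by
  have hcard := card_aug (N := N) ha hG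
  have hgp := gp_aug ha hS hNM hG
  set Q := aug a B X Y N with hQ
  have hE : Even #Q := by rw [hcard]; exact hn.add hN
  set K : Set (ℝ × ℝ) := {z | z.1 ≤ X} with hK
  have hKc : Convex ℝ K := by
    intro z hz w hw s t hs ht' hst
    simp only [hK, Set.mem_ofPred_eq, Prod.fst_add, Prod.smul_fst, smul_eq_mul] at hz hw ⊢
    have : s * z.1 + t * w.1 ≤ s * X + t * X := by gcongr
    calc _ ≤ s * X + t * X := this
      _ = X := by rw [← add_mul, hst, one_mul]
  have hmix := Pool.Agent.W296.HL.cut (gen_of_gp hgp) hE hKc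
  have hKn : #{z ∈ Q | z ∉ K} ≤ N := by
    have : ({z ∈ Q | z ∉ K} : Finset (ℝ × ℝ)) ⊆ (Finset.Icc 1 N).image (zp X Y) := by
      intro z hz
      rw [mem_filter, hQ, mem_aug] at hz
      obtain ⟨⟨i, rfl⟩ | ⟨t, ht', rfl⟩, hz⟩ := hz
      · exact absurd (hG.left i) hz
      · exact mem_image_of_mem _ (mem_Icc.mpr ht')
    refine (card_le_card this).trans (card_image_le.trans ?_)
    rw [Nat.card_Icc]
    omega
  have hinj2 : Function.Injective fun i => ((a i, B i) : ℝ × ℝ) := fun i j h =>
    ha (congrArg Prod.fst h)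
  -- counting on a side
  have hcnt : ∀ (g : ℝ × ℝ → Prop), #{z ∈ Q | g z} = #{l : Fin n | g (a l, B l)} +
      #{t ∈ Finset.Icc 1 N | g (zp X Y t)} := by
    intro g
    rw [hQ]
    unfold aug
    rw [filter_union, card_union_of_disjoint, filter_image, filter_image,
      card_image_of_injective _ hinj2, card_image_of_injective _ (zp_inj X Y)]
    exact (aug_disj hG).mono (filter_subset _ _) (filter_subset _ _)
  have hsub : {L | IsBisector Q L} ⊆
      ((fun q => Line (cr a B q.1 q.2) 1 (ht a B q.1 (cr a B q.1 q.2))) ''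
        (Sk a B N : Set (Fin n × Fin n))) ∪
      {L | IsBisector Q L ∧ (∃ p ∈ Q, p ∉ K ∧ p ∈ L) ∧ ∃ q ∈ Q, q ∈ K ∧ q ∈ L} := by
    intro L hL
    obtain ⟨u, v, c, huv, hLe, ⟨p, hp, q, hq, hpq, hpL, hqL⟩, h1, h2⟩ := id hL
    have hbal : #{z ∈ Q | u * z.1 + v * z.2 < c} = #{z ∈ Q | c < u * z.1 + v * z.2} := by
      rw [h1]; exact h2.symm
    -- two given points
    have gen : ∀ i j : Fin n, a j < a i → u * a i + v * B i = c → u * a j + v * B j = c →
        L ∈ ((fun q => Line (cr a B q.1 q.2) 1 (ht a B q.1 (cr a B q.1 q.2))) ''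
        (Sk a B N : Set (Fin n × Fin n))) := by
      intro i j hlt hi hj
      obtain ⟨hv, h⟩ := line_pp (a := a) (B := B) huv hlt hi hj
      refine ⟨(i, j), ?_, ?_⟩
      · rw [mem_coe]
        unfold Sk
        rw [mem_filter]
        refine ⟨mem_pr.mpr hlt, ?_⟩
        have hz : ∀ t ∈ Finset.Icc 1 N, 0 < (zp X Y t).1 * cr a B i j + (zp X Y t).2 -
            ht a B i (cr a B i j) := by
          intro t ht'
          rw [mem_Icc] at ht'
          have := hG.abv i j hlt t (mem_range.mpr (by omega))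
          simp only [zp]
          linarith
        rw [hcnt, hcnt] at hbal
        have hlo : lo a B (i, j) = univ.filter (fun l : Fin n => a l * cr a B i j + B l -
            ht a B i (cr a B i j) < 0) := by
          ext l
          rw [mem_lo, mem_filter]
          unfold ht
          simp only [mem_univ, true_and]
          constructor <;> intro h <;> linarith
        have hup : up a B (i, j) = univ.filter (fun l : Fin n => 0 < a l * cr a B i j + B l -
            ht a B i (cr a B i j)) := by
          ext l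
          rw [mem_up, mem_filter]
          unfold ht
          simp only [mem_univ, true_and]
          constructor <;> intro h <;> linarith
        rcases lt_or_gt_of_ne hv with hv0 | hv0
        · have e1 : ∀ x y : ℝ, u * x + v * y < c ↔
              0 < x * cr a B i j + y - ht a B i (cr a B i j) := by
            intro x y
            have := h x y
            constructor
            · intro h'
              by_contra hcon
              push Not at hcon
              nlinarith
            · intro h'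
              nlinarith
          have e2 : ∀ x y : ℝ, c < u * x + v * y ↔
              x * cr a B i j + y - ht a B i (cr a B i j) < 0 := by
            intro x y
            have := h x y
            constructor
            · intro h'
              by_contra hcon
              push Not at hcon
              nlinarith
            · intro h'
              nlinarith
          simp only [e1, e2] at hbal
          rw [← hlo, ← hup] at hbal
          rw [filter_true_of_mem hz, filter_false_of_mem (fun t ht' => not_lt.mpr (hz t ht').le),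
            card_empty, Nat.card_Icc] at hbal
          omega
        · have e1 : ∀ x y : ℝ, u * x + v * y < c ↔
              x * cr a B i j + y - ht a B i (cr a B i j) < 0 := by
            intro x y
            have := h x y
            constructor
            · intro h'
              by_contra hcon
              push Not at hcon
              nlinarith
            · intro h'
              nlinarith
          have e2 : ∀ x y : ℝ, c < u * x + v * y ↔
              0 < x * cr a B i j + y - ht a B i (cr a B i j) := by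
            intro x y
            have := h x y
            constructor
            · intro h'
              by_contra hcon
              push Not at hcon
              nlinarith
            · intro h'
              nlinarith
          simp only [e1, e2] at hbal
          rw [← hlo, ← hup] at hbal
          rw [filter_true_of_mem hz, filter_false_of_mem (fun t ht' => not_lt.mpr (hz t ht').le),
            card_empty, Nat.card_Icc] at hbal
          omega
      · simp only
        rw [hLe]
        ext z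
        simp only [Line, Set.mem_ofPred_eq]
        have h3 := h z.1 z.2
        constructor
        · intro h4
          have : v * (z.1 * cr a B i j + z.2 - ht a B i (cr a B i j)) = 0 := by
            rw [show z.1 * cr a B i j + z.2 - ht a B i (cr a B i j) = 0 by linarith, mul_zero]
          linarith
        · intro h4
          rw [h4, sub_self] at h3
          have := (mul_eq_zero.mp h3.symm).resolve_left hv
          linarith
    rw [hLe] at hpL hqL
    rw [hQ, mem_aug] at hp hq
    rcases hp with ⟨i, rfl⟩ | ⟨s, hs, rfl⟩ <;> rcases hq with ⟨j, rfl⟩ | ⟨t, ht', rfl⟩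
    · left
      have hij : i ≠ j := by rintro rfl; exact hpq rfl
      rcases lt_or_gt_of_ne (ha.ne hij) with h | h
      · exact gen j i h hqL hpL
      · exact gen i j h hpL hqL
    · right
      refine ⟨hL, ⟨zp X Y t, ?_, ?_, ?_⟩, (a i, B i), ?_, hG.left i, ?_⟩
      · rw [hQ, mem_aug]; exact Or.inr ⟨t, ht', rfl⟩
      · simp only [hK, zp, Set.mem_ofPred_eq, not_le]
        have : (1 : ℝ) ≤ t := by exact_mod_cast ht'.1
        linarith
      · rw [hLe]; exact hqL
      · rw [hQ, mem_aug]; exact Or.inl ⟨i, rfl⟩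
      · rw [hLe]; exact hpL
    · right
      refine ⟨hL, ⟨zp X Y s, ?_, ?_, ?_⟩, (a j, B j), ?_, hG.left j, ?_⟩
      · rw [hQ, mem_aug]; exact Or.inr ⟨s, hs, rfl⟩
      · simp only [hK, zp, Set.mem_ofPred_eq, not_le]
        have : (1 : ℝ) ≤ s := by exact_mod_cast hs.1
        linarith
      · rw [hLe]; exact hpL
      · rw [hQ, mem_aug]; exact Or.inl ⟨j, rfl⟩
      · rw [hLe]; exact hqL
    · exfalso
      have hst : s ≠ t := by rintro rfl; exact hpq rfl
      obtain ⟨hv, h⟩ := line_zz hst huv hpL hqL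
      have hneg : ∀ i, ((s : ℝ) + t) * (a i - X) + (B i - Y) - s * t < 0 := by
        intro i
        have h6 := hG.left i
        have h7 := hG.low i
        have h8 : (0 : ℝ) ≤ s := Nat.cast_nonneg s
        have h9 : (0 : ℝ) ≤ t := Nat.cast_nonneg t
        have h10 : 0 ≤ ((s : ℝ) + t) * (X - a i) := mul_nonneg (by linarith) (by linarith)
        have h11 : 0 ≤ (s : ℝ) * t := by positivity
        nlinarith
      rw [hcnt, hcard] at h1
      rw [hcnt, hcard] at h2
      obtain ⟨r, hr⟩ := hn
      obtain ⟨r', hr'⟩ := hN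
      rcases lt_or_gt_of_ne hv with hv0 | hv0
      · rw [filter_true_of_mem (fun i _ => by
          have := h (a i) (B i)
          have := mul_pos_of_neg_of_neg hv0 (hneg i)
          linarith : ∀ i ∈ (univ : Finset (Fin n)), c < u * a i + v * B i), card_univ,
          Fintype.card_fin] at h2
        omega
      · rw [filter_true_of_mem (fun i _ => by
          have := h (a i) (B i)
          have := mul_neg_of_pos_of_neg hv0 (hneg i)
          linarith : ∀ i ∈ (univ : Finset (Fin n)), u * a i + v * B i < c), card_univ,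
          Fintype.card_fin] at h1
        omega
  have hfin2 : {L | IsBisector Q L ∧ (∃ p ∈ Q, p ∉ K ∧ p ∈ L) ∧
      ∃ q ∈ Q, q ∈ K ∧ q ∈ L}.Finite := (bis_finite Q).subset fun L hL => hL.1
  refine (Set.ncard_le_ncard hsub (((Sk a B N).finite_toSet.image _).union hfin2)).trans ?_
  refine (Set.ncard_union_le _ _).trans (Nat.add_le_add ?_ (hmix.trans hKn))
  refine (Set.ncard_image_le (Sk a B N).finite_toSet).trans ?_
  rw [Set.ncard_coe_finset]

/-- **additions**, for points with distinct abscissae -/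
theorem add_core {a B : Fin n → ℝ} (ha : Function.Injective a) (hS : Simple a B) (hn : Even n)
    (h0 : 0 < n) {h : ℕ} (hh : 2 * h ≤ n) :
    ∃ Q : Finset (ℝ × ℝ), (∀ i, (a i, B i) ∈ Q) ∧ GeneralPosition Q ∧ Even #Q ∧
      #Q ≤ n + 2 * h ∧ ∃ N : ℕ, {L | IsBisector Q L}.ncard ≤ N + 2 * h ∧
      ((h : ℝ) + 1) * N ≤
        18 * n * (((n : ℝ) + 1) ^ (1 / 3 : ℝ) * (2 * (h : ℝ) + 1) ^ (2 / 3 : ℝ)) := by
  classical
  obtain ⟨X, Y, hG⟩ := exists_good a B (2 * h)
  obtain ⟨u, hu⟩ := avg (m := 1) (h := h) (pr a)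
    (fun q u => #(lo a B q) = #(up a B q) + 2 * (u 0 : ℕ)) (by
      intro q hq
      refine ⟨0, ?_⟩
      intro u u' _ h1 h2
      funext s
      rw [Subsingleton.elim s 0]
      apply Fin.ext
      omega)
  have hu0 : (u 0 : ℕ) ≤ h := by have := (u 0).2; omega
  refine ⟨aug a B X Y (2 * (u 0 : ℕ)), ?_, gp_aug ha hS (by omega) hG, ?_, ?_,
    #(Sk a B (2 * (u 0 : ℕ))), ?_, ?_⟩
  · intro i
    rw [mem_aug]
    exact Or.inl ⟨i, rfl⟩
  · rw [card_aug ha hG]
    exact hn.add (even_two_mul _)
  · rw [card_aug ha hG]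
    omega
  · refine (bis_aug ha hS (by omega) hG hn (even_two_mul _) (by omega) h0).trans ?_
    omega
  · have h1 := window_le hS (2 * h)
    have h2 : ((h + 1) * #(Sk a B (2 * (u 0 : ℕ)))) ≤
        #{q ∈ pr a | #(lo a B q) ≤ #(up a B q) + 2 * h ∧ #(up a B q) ≤ #(lo a B q) + 2 * h} := by
      have h3 : #(Sk a B (2 * (u 0 : ℕ))) =
          #{q ∈ pr a | #(lo a B q) = #(up a B q) + 2 * (u 0 : ℕ)} := by
        unfold Sk
        congr 1
      rw [h3]
      refine le_trans hu (card_le_card ?_)
      intro q hq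
      simp only [mem_filter] at hq ⊢
      obtain ⟨hq, v, hv⟩ := hq
      have := (v 0).2
      exact ⟨hq, by omega, by omega⟩
    have h4 : (((h + 1) * #(Sk a B (2 * (u 0 : ℕ))) : ℕ) : ℝ) ≤
        18 * n * (((n : ℝ) + 1) ^ (1 / 3 : ℝ) * (((2 * h : ℕ) : ℝ) + 1) ^ (2 / 3 : ℝ)) :=
      le_trans (by exact_mod_cast h2) h1
    push_cast at h4
    exact h4

/-- cubing -/
lemma cube_add {N n h d : ℝ} (hN : 0 ≤ N) (hn : 1 ≤ n) (hh : 0 ≤ h)
    (hdh : d + 1 ≤ 2 * (h + 1))
    (hb : (h + 1) * N ≤ 18 * n * ((n + 1) ^ (1 / 3 : ℝ) * (2 * h + 1) ^ (2 / 3 : ℝ))) :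
    (d + 1) * N ^ 3 ≤ 46 ^ 3 * n ^ 4 := by
  set z : ℝ := (n + 1) ^ (1 / 3 : ℝ) * (2 * h + 1) ^ (2 / 3 : ℝ) with hz
  have hz3 : z ^ 3 = (n + 1) * (2 * h + 1) ^ 2 := by
    rw [hz, mul_pow, ← Real.rpow_natCast, ← Real.rpow_mul (by linarith),
      ← Real.rpow_natCast ((2 * h + 1) ^ (2 / 3 : ℝ)), ← Real.rpow_mul (by linarith)]
    norm_num
  have h1 : ((h + 1) * N) ^ 3 ≤ (18 * n * z) ^ 3 := by
    apply pow_le_pow_left₀ (by positivity) hb
  have h2 : (18 * n * z) ^ 3 = 5832 * n ^ 3 * ((n + 1) * (2 * h + 1) ^ 2) := by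
    rw [mul_pow, hz3]; ring
  have h3 : 5832 * n ^ 3 * ((n + 1) * (2 * h + 1) ^ 2) ≤
      5832 * n ^ 3 * ((2 * n) * (4 * (h + 1) ^ 2)) := by
    have : (2 * h + 1) ^ 2 ≤ 4 * (h + 1) ^ 2 := by nlinarith
    have : (n + 1) * (2 * h + 1) ^ 2 ≤ (2 * n) * (4 * (h + 1) ^ 2) :=
      mul_le_mul (by linarith) this (by positivity) (by positivity)
    exact mul_le_mul_of_nonneg_left this (by positivity)
  have h4 : (h + 1) ^ 2 * ((h + 1) * N ^ 3) ≤ (h + 1) ^ 2 * (5832 * 8 * n ^ 4) := by
    calc (h + 1) ^ 2 * ((h + 1) * N ^ 3) = ((h + 1) * N) ^ 3 := by ring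
      _ ≤ 5832 * n ^ 3 * ((2 * n) * (4 * (h + 1) ^ 2)) := by linarith
      _ = _ := by ring
  have h5 : (h + 1) * N ^ 3 ≤ 5832 * 8 * n ^ 4 := le_of_mul_le_mul_left h4 (by positivity)
  calc (d + 1) * N ^ 3 ≤ 2 * (h + 1) * N ^ 3 := by gcongr
    _ = 2 * ((h + 1) * N ^ 3) := by ring
    _ ≤ 2 * (5832 * 8 * n ^ 4) := by linarith
    _ ≤ 46 ^ 3 * n ^ 4 := by
      have : 0 ≤ n ^ 4 := by positivity
      nlinarith

/-- a shear maps bisectors to bisectors -/
lemma bis_pre {ε : ℝ} {Q : Finset (ℝ × ℝ)} {L : Set (ℝ × ℝ)}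
    (hL : open scoped Classical in IsBisector (Q.image (shr ε)) L) :
    IsBisector Q (shr ε ⁻¹' L) := by
  classical
  obtain ⟨a, b, c, hab, rfl, ⟨p, hp, q, hq, hpq, hpL, hqL⟩, h1, h2⟩ := hL
  obtain ⟨p', hp', rfl⟩ := mem_image.mp hp
  obtain ⟨q', hq', rfl⟩ := mem_image.mp hq
  rw [filter_image, card_image_of_injective _ (shr_inj ε),
    card_image_of_injective _ (shr_inj ε)] at h1 h2
  refine ⟨a, b + a * ε, c, ?_, ?_, ⟨p', hp', q', hq', ?_, hpL, hqL⟩, ?_, ?_⟩
  · by_cases ha : a = 0
    · right
      rw [ha]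
      rcases hab with h | h
      · exact absurd ha h
      · simpa using h
    · exact Or.inl ha
  · ext z
    simp only [Line, shr, Set.mem_preimage, Set.mem_ofPred_eq]
    constructor <;> intro h <;> linarith
  · rintro rfl; exact hpq rfl
  · rw [← h1]
    apply congrArg card
    apply Finset.ext
    intro z
    rw [Finset.mem_filter, Finset.mem_filter]
    simp only [shr]
    constructor <;> rintro ⟨h, h'⟩ <;> exact ⟨h, by linarith⟩
  · rw [← h2]
    apply congrArg card
    apply Finset.ext
    intro z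
    rw [Finset.mem_filter, Finset.mem_filter]
    simp only [shr]
    constructor <;> rintro ⟨h, h'⟩ <;> exact ⟨h, by linarith⟩

lemma gp_shr {ε : ℝ} {Q : Finset (ℝ × ℝ)} (hQ : GeneralPosition Q) :
    open scoped Classical in GeneralPosition (Q.image (shr ε)) := by
  classical
  intro a b c hab p hp q hq r hr hpq hpr hqr ⟨h1, h2, h3⟩
  obtain ⟨p', hp', rfl⟩ := mem_image.mp hp
  obtain ⟨q', hq', rfl⟩ := mem_image.mp hq
  obtain ⟨r', hr', rfl⟩ := mem_image.mp hr
  have hab' : a ≠ 0 ∨ (b + a * ε) ≠ 0 := by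
    by_cases ha : a = 0
    · right
      rw [ha]
      rcases hab with h | h
      · exact absurd ha h
      · simpa using h
    · exact Or.inl ha
  apply hQ a (b + a * ε) c hab' p' hp' q' hq' r' hr' (by rintro rfl; exact hpq rfl)
    (by rintro rfl; exact hpr rfl) (by rintro rfl; exact hqr rfl)
  simp only [Line, shr, Set.mem_ofPred_eq] at h1 h2 h3 ⊢
  refine ⟨by linarith, by linarith, by linarith⟩

lemma shr_shr (ε : ℝ) (z : ℝ × ℝ) : shr (-ε) (shr ε z) = z := by
  unfold shr
  ext
  · simp
  · rfl

/-- **Few additions** (cubic form). -/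
theorem few_add {P : Finset (ℝ × ℝ)} (hP : GeneralPosition P) (hE : Even #P) {d : ℕ}
    (hd : d ≤ #P) :
    ∃ Q : Finset (ℝ × ℝ), P ⊆ Q ∧ GeneralPosition Q ∧ Even #Q ∧ #Q ≤ #P + d ∧
      ∃ N : ℝ, 0 ≤ N ∧ ({L | IsBisector Q L}.ncard : ℝ) ≤ N + d ∧
        ((d : ℝ) + 1) * N ^ 3 ≤ 46 ^ 3 * (#P : ℝ) ^ 4 := by
  classical
  rcases Nat.eq_zero_or_pos #P with h0 | h0
  · refine ⟨P, Subset.rfl, hP, hE, by omega, 0, le_rfl, ?_, ?_⟩
    · have hemp : {L | IsBisector P L} = ∅ := by
        rw [Set.eq_empty_iff_forall_notMem]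
        rintro L ⟨a, b, c, -, -, ⟨p, hp, -⟩, -⟩
        rw [card_eq_zero.mp h0] at hp
        exact absurd hp (notMem_empty _)
      rw [hemp, Set.ncard_empty]
      simp
    · rw [h0]
      simp
  obtain ⟨ε, hε⟩ := exists_shear P
  obtain ⟨n, hn⟩ : ∃ n, #P = n := ⟨_, rfl⟩
  set p : Fin n → ℝ × ℝ := fun i => (P.equivFinOfCardEq hn).symm i with hpdef
  have hpP : ∀ i, p i ∈ P := fun i => ((P.equivFinOfCardEq hn).symm i).2
  have hpinj : Function.Injective p := fun i j h =>
    (P.equivFinOfCardEq hn).symm.injective (Subtype.ext h)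
  have hpsurj : ∀ x ∈ P, ∃ i, p i = x := by
    intro x hx
    refine ⟨P.equivFinOfCardEq hn ⟨x, hx⟩, ?_⟩
    rw [hpdef]
    simp
  have hinj : Function.Injective (sa ε p) := by
    intro i j h
    exact hpinj (hε _ (hpP i) _ (hpP j) h)
  have hS := simple_sh hinj hpP hP
  rw [hn] at hE hd h0 ⊢
  obtain ⟨Q, h1, h2, h3, h4, N, h5, h6⟩ := add_core hinj hS hE h0 (h := d / 2) (by omega)
  refine ⟨Q.image (shr (-ε)), ?_, gp_shr h2, ?_, ?_, N, by positivity, ?_, ?_⟩
  · intro x hx
    obtain ⟨i, rfl⟩ := hpsurj x hx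
    rw [mem_image]
    exact ⟨_, h1 i, shr_shr ε (p i)⟩
  · rw [card_image_of_injective _ (shr_inj _)]
    exact h3
  · rw [card_image_of_injective _ (shr_inj _)]
    omega
  · have hle : {L | IsBisector (Q.image (shr (-ε))) L}.ncard ≤ {L | IsBisector Q L}.ncard := by
      apply Set.ncard_le_ncard_of_injOn (fun L => shr (-ε) ⁻¹' L) (fun L hL => bis_pre hL) _
        (bis_finite Q)
      have hsur : Function.Surjective (shr (-ε)) := fun z => ⟨shr ε z, shr_shr ε z⟩
      intro L _ L' _ h
      exact hsur.preimage_injective h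
    have h7 : {L | IsBisector (Q.image (shr (-ε))) L}.ncard ≤ N + d := by omega
    exact_mod_cast h7
  · apply cube_add (h := ((d / 2 : ℕ) : ℝ)) (by positivity) (by exact_mod_cast (by omega : 1 ≤ n))
      (by positivity) _ h6
    exact_mod_cast (by omega : d + 1 ≤ 2 * (d / 2 + 1))

end Pool.Agent.Q236.HB
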