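import Pool.Agent.Q236.HB.Sep
import Pool.Agent.Y344.KD.Win
import Pool.Agent.Y344.KD.Pert

/-!
# Deleting few lines so that few crossings are at the middle level
-/

set_option autoImplicit false

namespace Pool.Agent.Q236.HB

open Finset
open Pool.Agent.H189R2.Lev (ht cr ht_cr exists_stat)
open Pool.Agent.H189R2.Iid (GP T lev mem_T low)
open Pool.Agent.Results.MP_a08d0a_co.SmoothedLevel (Simple)

/-- averaging over a product of intervals -/
theorem avg {ι : Type*} {m h : ℕ} (E : Finset ι) (f : ι → (Fin m → Fin (h + 1)) → Prop)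
    [∀ e u, Decidable (f e u)] [DecidablePred fun e => ∃ u, f e u]
    (hf : ∀ e ∈ E, ∃ t, ∀ u u' : Fin m → Fin (h + 1), (∀ s, s ≠ t → u s = u' s) →
      f e u → f e u' → u = u') :
    ∃ u, (h + 1) * #{e ∈ E | f e u} ≤ #{e ∈ E | ∃ u, f e u} := by
  have hu : ∀ e ∈ E, (h + 1) * #{u : Fin m → Fin (h + 1) | f e u} ≤
      (h + 1) ^ m * (if ∃ u, f e u then 1 else 0) := by
    intro e he
    split_ifs with hex
    · obtain ⟨t, ht⟩ := hf e he
      have hm : 1 ≤ m := by
        have := t.2
        omega
      have h1 : #{u : Fin m → Fin (h + 1) | f e u} ≤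
          Fintype.card ({s : Fin m // s ≠ t} → Fin (h + 1)) := by
        rw [← card_univ]
        apply card_le_card_of_injOn (fun u s => u s.1) (fun _ _ => mem_coe.mpr (mem_univ _))
        intro u hu u' hu' heq
        rw [mem_coe, mem_filter] at hu hu'
        exact ht u u' (fun s hs => congrFun heq ⟨s, hs⟩) hu.2 hu'.2
      rw [Fintype.card_fun, Fintype.card_fin] at h1
      have h2 : Fintype.card {s : Fin m // s ≠ t} = m - 1 := by
        rw [Fintype.card_subtype_compl, Fintype.card_fin, Fintype.card_subtype_eq]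
      rw [h2] at h1
      calc (h + 1) * #{u : Fin m → Fin (h + 1) | f e u} ≤ (h + 1) * (h + 1) ^ (m - 1) :=
            Nat.mul_le_mul_left _ h1
        _ = (h + 1) ^ m := by rw [← pow_succ', Nat.sub_add_cancel hm]
        _ = _ := by ring
    · have : #{u : Fin m → Fin (h + 1) | f e u} = 0 := by
        rw [card_eq_zero, filter_eq_empty_iff]
        intro u _ hu
        exact hex ⟨u, hu⟩
      rw [this]
      simp
  have hsum : ∑ u : Fin m → Fin (h + 1), (h + 1) * #{e ∈ E | f e u} ≤
      ∑ _u : Fin m → Fin (h + 1), #{e ∈ E | ∃ u, f e u} := by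
    calc ∑ u : Fin m → Fin (h + 1), (h + 1) * #{e ∈ E | f e u} =
          ∑ e ∈ E, (h + 1) * #{u : Fin m → Fin (h + 1) | f e u} := by
          rw [← mul_sum, ← mul_sum]
          congr 1
          simp_rw [card_filter]
          rw [sum_comm]
      _ ≤ ∑ e ∈ E, (h + 1) ^ m * (if ∃ u, f e u then 1 else 0) := sum_le_sum hu
      _ = (h + 1) ^ m * #{e ∈ E | ∃ u, f e u} := by
          rw [← mul_sum, card_filter]
      _ = _ := by
          rw [sum_const, card_univ, Fintype.card_fun, Fintype.card_fin, Fintype.card_fin,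
            smul_eq_mul]
  obtain ⟨u, -, hu'⟩ := exists_le_of_sum_le (univ_nonempty) hsum
  exact ⟨u, hu'⟩

variable {n : ℕ}

open scoped Classical in
/-- oriented pairs of lines -/
noncomputable def pr (a : Fin n → ℝ) : Finset (Fin n × Fin n) :=
  univ.filter fun q => a q.2 < a q.1

open scoped Classical in
/-- the lines below the crossing of a pair -/
noncomputable def lo (a B : Fin n → ℝ) (q : Fin n × Fin n) : Finset (Fin n) :=
  univ.filter fun l => ht a B l (cr a B q.1 q.2) < ht a B q.1 (cr a B q.1 q.2)

open scoped Classical in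
/-- the lines above the crossing of a pair -/
noncomputable def up (a B : Fin n → ℝ) (q : Fin n × Fin n) : Finset (Fin n) :=
  univ.filter fun l => ht a B q.1 (cr a B q.1 q.2) < ht a B l (cr a B q.1 q.2)

variable {a B : Fin n → ℝ}

lemma mem_pr {q : Fin n × Fin n} : q ∈ pr a ↔ a q.2 < a q.1 := by simp [pr]

lemma mem_lo {q : Fin n × Fin n} {l : Fin n} :
    l ∈ lo a B q ↔ ht a B l (cr a B q.1 q.2) < ht a B q.1 (cr a B q.1 q.2) := by simp [lo]

lemma mem_up {q : Fin n × Fin n} {l : Fin n} :
    l ∈ up a B q ↔ ht a B q.1 (cr a B q.1 q.2) < ht a B l (cr a B q.1 q.2) := by simp [up]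

lemma lo_up (hS : Simple a B) {q : Fin n × Fin n} (hq : q ∈ pr a) :
    #(lo a B q) + #(up a B q) + 2 = n := by
  classical
  have hne : q.1 ≠ q.2 := by
    intro h
    have := mem_pr.mp hq
    rw [h] at this
    exact lt_irrefl _ this
  have hcr := ht_cr (a := a) (B := B) (mem_pr.mp hq).ne'
  have h1 : (univ : Finset (Fin n)) = lo a B q ∪ up a B q ∪ {q.1, q.2} := by
    ext l
    simp only [mem_univ, mem_union, mem_lo, mem_up, mem_insert, mem_singleton, true_iff]
    by_contra hcon
    push Not at hcon
    obtain ⟨⟨h1, h2⟩, h3, h4⟩ := hcon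
    have h5 := le_antisymm h1 h2
    exact hS.2 q.1 q.2 l hne (Ne.symm h3) (Ne.symm h4) ⟨cr a B q.1 q.2, hcr.symm, h5⟩
  have h2 : Disjoint (lo a B q) (up a B q) := by
    rw [disjoint_left]
    intro l hl hl'
    exact lt_asymm (mem_lo.mp hl) (mem_up.mp hl')
  have h3 : Disjoint (lo a B q ∪ up a B q) {q.1, q.2} := by
    rw [disjoint_left]
    intro l hl hl'
    rw [mem_insert, mem_singleton] at hl'
    rw [mem_union, mem_lo, mem_up] at hl
    rcases hl' with rfl | rfl
    · rcases hl with h | h <;> exact lt_irrefl _ h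
    · rw [hcr] at hl
      rcases hl with h | h <;> exact lt_irrefl _ h
  have h4 := congrArg card h1
  rw [card_union_of_disjoint h3, card_union_of_disjoint h2, card_univ, Fintype.card_fin,
    card_pair hne] at h4
  exact h4.symm

open scoped Classical in
/-- **windows**: the number of crossings at which the numbers of lines below and above differ by at
most `w` -/
theorem window_le (hS : Simple a B) (w : ℕ) :
    (#{q ∈ pr a | #(lo a B q) ≤ #(up a B q) + w ∧ #(up a B q) ≤ #(lo a B q) + w} : ℝ) ≤
      18 * n * (((n : ℝ) + 1) ^ (1 / 3 : ℝ) * ((w : ℝ) + 1) ^ (2 / 3 : ℝ)) := by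
  obtain ⟨P, hGP, hP⟩ := Pool.Agent.Y344.KD.exists_GP hS
  set W : Finset ℕ := (range (n + 1)).filter (fun k => n ≤ 2 * k + 2 + w ∧ 2 * k + 2 ≤ n + w)
    with hW
  have hsub : ({q ∈ pr a | #(lo a B q) ≤ #(up a B q) + w ∧ #(up a B q) ≤ #(lo a B q) + w} :
      Finset (Fin n × Fin n)) ⊆ Pool.Agent.Y344.KD.EW P W := by
    intro q hq
    rw [mem_filter] at hq
    obtain ⟨hq, h1, h2⟩ := hq
    have h3 := lo_up hS hq
    have h4 := hP q.1 q.2 (mem_pr.mp hq)
    have h5 : lev P q = #(lo a B q) := by
      unfold lev lo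
      congr 1
      ext l
      rw [mem_filter, mem_filter]
      exact and_congr_right fun _ => h4.2 l
    unfold Pool.Agent.Y344.KD.EW
    rw [mem_filter, mem_T, h5, hW, mem_filter, mem_range]
    exact ⟨h4.1, by omega, by omega, by omega⟩
  have hcW : #W ≤ w + 1 := by
    have : W ⊆ Finset.Icc ((n - 2 - w + 1) / 2) ((n + w - 2) / 2) := by
      intro k hk
      rw [hW, mem_filter] at hk
      rw [mem_Icc]
      omega
    refine (card_le_card this).trans ?_
    rw [Nat.card_Icc]
    omega
  have h6 := Pool.Agent.Y344.KD.window hGP W (K := n) (by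
    intro k hk
    rw [hW, mem_filter, mem_range] at hk
    omega)
  have h7 : (#{q ∈ pr a | #(lo a B q) ≤ #(up a B q) + w ∧ #(up a B q) ≤ #(lo a B q) + w} : ℝ) ≤
      #(Pool.Agent.Y344.KD.EW P W) := by exact_mod_cast card_le_card hsub
  refine h7.trans (h6.trans ?_)
  have h8 : (#W : ℝ) ≤ (w : ℝ) + 1 := by exact_mod_cast hcW
  gcongr

open scoped Classical in
/-- the crossings of the remaining lines with equally many remaining lines below and above -/
noncomputable def Hc (a B : Fin n → ℝ) (D : Finset (Fin n)) : Finset (Fin n × Fin n) :=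
  (pr a).filter fun q => q.1 ∉ D ∧ q.2 ∉ D ∧ #(lo a B q \ D) = #(up a B q \ D)

open scoped Classical in
/-- **deletions**: few crossings are halving after the deletion of a suitable small set -/
theorem del_core {m h : ℕ} (A : Fin m → Finset (Fin n))
    (hd : ∀ s t, s ≠ t → Disjoint (A s) (A t)) (hA : ∀ s, 2 * h ≤ #(A s))
    (hs : ∀ x y : ℝ, ∃ t, (∀ l ∈ A t, ht a B l x < y) ∨ (∀ l ∈ A t, y < ht a B l x)) :
    ∃ D : Finset (Fin n), #D ≤ 2 * m * h ∧ Even #D ∧
      (h + 1) * #(Hc a B D) ≤
        #{q ∈ pr a | #(lo a B q) ≤ #(up a B q) + 2 * m * h ∧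
          #(up a B q) ≤ #(lo a B q) + 2 * m * h} := by
  -- the sets to be deleted
  have hC : ∀ (s : Fin m) (v : Fin (h + 1)), ∃ C ⊆ A s, #C = 2 * (v : ℕ) := by
    intro s v
    exact exists_subset_card_eq (le_trans (by have := v.2; omega) (hA s))
  choose C hCA hCc using hC
  set D : (Fin m → Fin (h + 1)) → Finset (Fin n) := fun u => univ.biUnion fun s => C s (u s)
    with hD
  have hCd : ∀ (u : Fin m → Fin (h + 1)) s t, s ≠ t → Disjoint (C s (u s)) (C t (u t)) :=
    fun u s t hst => (hd s t hst).mono (hCA _ _) (hCA _ _)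
  have hDc : ∀ u, #(D u) = ∑ s, 2 * (u s : ℕ) := by
    intro u
    rw [hD]
    simp only
    rw [card_biUnion (fun s _ t _ hst => hCd u s t hst)]
    exact sum_congr rfl fun s _ => hCc s (u s)
  have hDle : ∀ u, #(D u) ≤ 2 * m * h := by
    intro u
    rw [hDc]
    calc ∑ s, 2 * (u s : ℕ) ≤ ∑ _s : Fin m, 2 * h := by
          apply sum_le_sum
          intro s _
          have := (u s).2
          omega
      _ = 2 * m * h := by rw [sum_const, card_univ, Fintype.card_fin, smul_eq_mul]; ring
  -- the difference for a family on one side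
  have hone : ∀ (Z : Finset (Fin n)) (t : Fin m), A t ⊆ Z → ∀ u : Fin m → Fin (h + 1),
      #(Z \ D u) + 2 * (u t : ℕ) = #(Z \ (univ.erase t).biUnion fun s => C s (u s)) := by
    intro Z t hZ u
    rw [← hCc t (u t), ← card_union_of_disjoint]
    · congr 1
      ext l
      simp only [hD, mem_union, mem_sdiff, mem_biUnion, mem_univ, true_and, mem_erase, not_exists,
        not_and, and_true]
      constructor
      · rintro (⟨h1, h2⟩ | h1)
        · exact ⟨h1, fun s _ => h2 s⟩
        · refine ⟨hZ (hCA _ _ h1), ?_⟩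
          intro s hst h2
          exact disjoint_left.mp (hCd u s t hst) h2 h1
      · rintro ⟨h1, h2⟩
        by_cases h3 : l ∈ C t (u t)
        · exact Or.inr h3
        · refine Or.inl ⟨h1, fun s => ?_⟩
          by_cases hst : s = t
          · rw [hst]; exact h3
          · exact h2 s hst
    · rw [disjoint_left]
      intro l hl hl'
      rw [mem_sdiff] at hl
      exact hl.2 (mem_biUnion.mpr ⟨t, mem_univ _, hl'⟩)
  have hother : ∀ (Z : Finset (Fin n)) (t : Fin m), Disjoint Z (A t) →
      ∀ u : Fin m → Fin (h + 1),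
      #(Z \ D u) = #(Z \ (univ.erase t).biUnion fun s => C s (u s)) := by
    intro Z t hZ u
    congr 1
    ext l
    simp only [hD, mem_sdiff, mem_biUnion, mem_univ, true_and, mem_erase, not_exists, not_and,
      and_true]
    constructor
    · rintro ⟨h1, h2⟩
      exact ⟨h1, fun s _ => h2 s⟩
    · rintro ⟨h1, h2⟩
      refine ⟨h1, fun s => ?_⟩
      by_cases hst : s = t
      · rw [hst]
        intro h3
        exact disjoint_left.mp hZ h1 (hCA _ _ h3)
      · exact h2 s hst
  obtain ⟨u, hu⟩ := avg (pr a) (fun q (u : Fin m → Fin (h + 1)) => q ∈ Hc a B (D u)) (by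
    intro q hq
    obtain ⟨t, ht'⟩ := hs (cr a B q.1 q.2) (ht a B q.1 (cr a B q.1 q.2))
    refine ⟨t, ?_⟩
    intro u u' huu h1 h2
    unfold Hc at h1 h2
    rw [mem_filter] at h1 h2
    have e1 := h1.2.2.2
    have e2 := h2.2.2.2
    have hE : (univ.erase t).biUnion (fun s => C s (u s)) =
        (univ.erase t).biUnion (fun s => C s (u' s)) := by
      apply biUnion_congr rfl
      intro s hs'
      rw [huu s (ne_of_mem_erase hs')]
    have hval : (u t : ℕ) = (u' t : ℕ) := by
      rcases ht' with ht' | ht'
      · have hsub : A t ⊆ lo a B q := fun l hl => mem_lo.mpr (ht' l hl)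
        have hdis : Disjoint (up a B q) (A t) := by
          rw [disjoint_left]
          intro l hl hl'
          exact lt_asymm (ht' l hl') (mem_up.mp hl)
        have g1 := hone _ t hsub u
        have g2 := hone _ t hsub u'
        have g3 := hother _ t hdis u
        have g4 := hother _ t hdis u'
        rw [hE] at g1 g3
        omega
      · have hsub : A t ⊆ up a B q := fun l hl => mem_up.mpr (ht' l hl)
        have hdis : Disjoint (lo a B q) (A t) := by
          rw [disjoint_left]
          intro l hl hl'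
          exact lt_asymm (ht' l hl') (mem_lo.mp hl)
        have g1 := hone _ t hsub u
        have g2 := hone _ t hsub u'
        have g3 := hother _ t hdis u
        have g4 := hother _ t hdis u'
        rw [hE] at g1 g3
        omega
    funext s
    by_cases hst : s = t
    · rw [hst]; exact Fin.ext hval
    · exact huu s hst)
  refine ⟨D u, hDle u, ?_, ?_⟩
  · rw [hDc, ← mul_sum]
    exact even_two_mul _
  · refine le_trans (le_trans (Nat.mul_le_mul_left _ (card_le_card ?_)) hu) (card_le_card ?_)
    · intro q hq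
      rw [mem_filter]
      exact ⟨(mem_filter.mp hq).1, hq⟩
    intro q hq
    rw [mem_filter] at hq ⊢
    obtain ⟨hq, v, hv⟩ := hq
    unfold Hc at hv
    rw [mem_filter] at hv
    have e := hv.2.2.2
    have g1 : #(lo a B q) ≤ #(lo a B q \ D v) + #(D v) := by
      have := card_le_card (show lo a B q ⊆ (lo a B q \ D v) ∪ D v from by
        intro l hl
        rw [mem_union, mem_sdiff]
        by_cases h : l ∈ D v
        · exact Or.inr h
        · exact Or.inl ⟨hl, h⟩)
      exact this.trans (card_union_le _ _)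
    have g2 : #(up a B q) ≤ #(up a B q \ D v) + #(D v) := by
      have := card_le_card (show up a B q ⊆ (up a B q \ D v) ∪ D v from by
        intro l hl
        rw [mem_union, mem_sdiff]
        by_cases h : l ∈ D v
        · exact Or.inr h
        · exact Or.inl ⟨hl, h⟩)
      exact this.trans (card_union_le _ _)
    have g3 := card_le_card (sdiff_subset (s := lo a B q) (t := D v))
    have g4 := card_le_card (sdiff_subset (s := up a B q) (t := D v))
    have g5 := hDle v
    exact ⟨hq, by omega, by omega⟩

end Pool.Agent.Q236.HB
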