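import Pool.Agent.Q236.HB.Del
import Pool.Agent.Y429.HalvFew

/-!
# Deleting few points so that few halving lines remain
-/

set_option autoImplicit false

namespace Pool.Agent.Q236.HB

open Finset
open Pool.Agent.W296.HL (Line GeneralPosition IsBisector)
open Pool.Agent.H189R2.Lev (ht cr ht_cr)
open Pool.Agent.Results.MP_a08d0a_co.SmoothedLevel (Simple)
open Pool.Agent.Y429.HalvFew (shr exists_shear)

variable {n : ℕ}

/-- sheared abscissae -/
def sa (ε : ℝ) (p : Fin n → ℝ × ℝ) (i : Fin n) : ℝ := (p i).1 + ε * (p i).2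

/-- ordinates -/
def sb (p : Fin n → ℝ × ℝ) (i : Fin n) : ℝ := (p i).2

/-- the line of a pair -/
def lin (ε : ℝ) (p : Fin n → ℝ × ℝ) (q : Fin n × Fin n) : Set (ℝ × ℝ) :=
  {z | cr (sa ε p) (sb p) q.1 q.2 * (z.1 + ε * z.2) + z.2 =
    ht (sa ε p) (sb p) q.1 (cr (sa ε p) (sb p) q.1 q.2)}

lemma simple_sh {ε : ℝ} {p : Fin n → ℝ × ℝ} (hinj : Function.Injective (sa ε p))
    {P : Finset (ℝ × ℝ)} (hpP : ∀ i, p i ∈ P) (hP : GeneralPosition P) :
    Simple (sa ε p) (sb p) := by
  refine ⟨fun i j hij h => absurd (hinj h) hij, ?_⟩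
  rintro i j l hij hil hjl ⟨x, h1, h2⟩
  have hp : Function.Injective p := by
    intro i j h
    apply hinj
    unfold sa
    rw [h]
  have hne : x ≠ 0 ∨ (ε * x + 1) ≠ 0 := by
    by_cases hx : x = 0
    · right; rw [hx]; norm_num
    · left; exact hx
  apply hP x (ε * x + 1) (ht (sa ε p) (sb p) i x) hne (p i) (hpP i) (p j) (hpP j) (p l) (hpP l)
    (hp.ne hij) (hp.ne hil) (hp.ne hjl)
  unfold ht sa sb at h1 h2
  simp only [Line, Set.mem_ofPred_eq, ht, sa, sb]
  refine ⟨by ring, by linarith, by linarith⟩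

open scoped Classical in
/-- the bisectors of the remaining points come from the halving crossings -/
theorem bis_le_Hc {ε : ℝ} {p : Fin n → ℝ × ℝ} (hinj : Function.Injective (sa ε p))
    (D : Finset (Fin n)) :
    {L | IsBisector (Dᶜ.image p) L}.ncard ≤ #(Hc (sa ε p) (sb p) D) := by
  have hp : Function.Injective p := by
    intro i j h
    apply hinj
    unfold sa
    rw [h]
  set a := sa ε p with ha
  set B := sb p with hB
  have key : ∀ L, IsBisector (Dᶜ.image p) L → ∃ q ∈ Hc a B D, lin ε p q = L := by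
    rintro L ⟨u, v, c, huv, rfl, ⟨P, hP, Q, hQ, hPQ, hPL, hQL⟩, h1, h2⟩
    obtain ⟨i, hi, rfl⟩ := mem_image.mp hP
    obtain ⟨j, hj, rfl⟩ := mem_image.mp hQ
    have hij : i ≠ j := by rintro rfl; exact hPQ rfl
    simp only [Line, Set.mem_ofPred_eq] at hPL hQL
    have hv : v - ε * u ≠ 0 := by
      intro hv
      have hv' : v = ε * u := by linarith
      have hu : u ≠ 0 := by
        rintro rfl
        rcases huv with h | h
        · exact h rfl
        · apply h; rw [hv']; ring
      apply hij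
      apply hinj
      rw [ha]
      unfold sa
      have : u * ((p i).1 + ε * (p i).2) = u * ((p j).1 + ε * (p j).2) := by
        rw [hv'] at hPL hQL; linarith
      exact mul_left_cancel₀ hu this
    -- the two sides have the same number of points
    have h3 : #{x ∈ Dᶜ.image p | u * x.1 + v * x.2 < c} =
        #{x ∈ Dᶜ.image p | c < u * x.1 + v * x.2} := by
      rw [h1]; exact h2.symm
    rw [filter_image, filter_image, card_image_of_injective _ hp,
      card_image_of_injective _ hp] at h3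
    have gen : ∀ i j : Fin n, i ∉ D → j ∉ D → a j < a i →
        u * (p i).1 + v * (p i).2 = c → u * (p j).1 + v * (p j).2 = c →
        ∃ q ∈ Hc a B D, lin ε p q = Line u v c := by
      intro i j hi hj hlt hPL hQL
      have hcr : cr a B i j = u / (v - ε * u) := by
        unfold cr
        have h0 : a i - a j ≠ 0 := by linarith
        rw [div_eq_div_iff h0 hv, ha, hB]
        unfold sa sb
        linarith
      have hht : ht a B i (cr a B i j) = c / (v - ε * u) := by
        rw [hcr]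
        unfold ht
        rw [eq_div_iff hv, ha, hB]
        unfold sa sb
        field_simp
        linarith
      have hl : ∀ l, (v - ε * u) * ht a B l (cr a B i j) = u * (p l).1 + v * (p l).2 := by
        intro l
        rw [hcr, ha, hB]
        unfold ht sa sb
        field_simp
        ring
      have hc : (v - ε * u) * ht a B i (cr a B i j) = c := by rw [hl]; exact hPL
      refine ⟨(i, j), ?_, ?_⟩
      · unfold Hc
        rw [mem_filter]
        refine ⟨mem_pr.mpr hlt, hi, hj, ?_⟩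
        rcases lt_or_gt_of_ne hv with hv0 | hv0
        · have e1 : lo a B (i, j) \ D = Dᶜ.filter (fun l => c < u * (p l).1 + v * (p l).2) := by
            ext l
            rw [mem_sdiff, mem_lo, mem_filter, mem_compl, ← hl l, ← hc]
            constructor
            · rintro ⟨h, h'⟩; exact ⟨h', mul_lt_mul_of_neg_left h hv0⟩
            · rintro ⟨h, h'⟩; exact ⟨by
                by_contra hcon
                push Not at hcon
                nlinarith, h⟩
          have e2 : up a B (i, j) \ D = Dᶜ.filter (fun l => u * (p l).1 + v * (p l).2 < c) := by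
            ext l
            rw [mem_sdiff, mem_up, mem_filter, mem_compl, ← hl l, ← hc]
            constructor
            · rintro ⟨h, h'⟩; exact ⟨h', mul_lt_mul_of_neg_left h hv0⟩
            · rintro ⟨h, h'⟩; exact ⟨by
                by_contra hcon
                push Not at hcon
                nlinarith, h⟩
          rw [e1, e2]
          exact h3.symm
        · have e1 : up a B (i, j) \ D = Dᶜ.filter (fun l => c < u * (p l).1 + v * (p l).2) := by
            ext l
            rw [mem_sdiff, mem_up, mem_filter, mem_compl, ← hl l, ← hc]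
            constructor
            · rintro ⟨h, h'⟩; exact ⟨h', mul_lt_mul_of_pos_left h hv0⟩
            · rintro ⟨h, h'⟩; exact ⟨lt_of_mul_lt_mul_left h' hv0.le, h⟩
          have e2 : lo a B (i, j) \ D = Dᶜ.filter (fun l => u * (p l).1 + v * (p l).2 < c) := by
            ext l
            rw [mem_sdiff, mem_lo, mem_filter, mem_compl, ← hl l, ← hc]
            constructor
            · rintro ⟨h, h'⟩; exact ⟨h', mul_lt_mul_of_pos_left h hv0⟩
            · rintro ⟨h, h'⟩; exact ⟨lt_of_mul_lt_mul_left h' hv0.le, h⟩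
          rw [e1, e2]
          exact h3
      · ext z
        simp only [lin, Line, Set.mem_ofPred_eq]
        rw [← ha, ← hB, hht, hcr, eq_div_iff hv]
        have : (u / (v - ε * u) * (z.1 + ε * z.2) + z.2) * (v - ε * u) = u * z.1 + v * z.2 := by
          have hw := div_mul_cancel₀ u hv
          linear_combination (z.1 + ε * z.2) * hw
        rw [this]
    rw [mem_compl] at hi hj
    rcases lt_or_gt_of_ne (hinj.ne hij) with h | h
    · exact gen j i hj hi h hQL hPL
    · exact gen i j hi hj h hPL hQL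
  have hsub : {L | IsBisector (Dᶜ.image p) L} ⊆ (lin ε p) '' (Hc a B D : Set (Fin n × Fin n)) := by
    intro L hL
    obtain ⟨q, hq, rfl⟩ := key L hL
    exact ⟨q, mem_coe.mpr hq, rfl⟩
  refine (Set.ncard_le_ncard hsub ((Hc a B D).finite_toSet.image _)).trans ?_
  refine (Set.ncard_image_le (Hc a B D).finite_toSet).trans ?_
  rw [Set.ncard_coe_finset]

/-- cubing -/
lemma cube_bound {N n h d : ℝ} (hN : 0 ≤ N) (hn : 1 ≤ n) (hh : 0 ≤ h)
    (hdh : d + 1 ≤ 48 * (h + 1))
    (hb : (h + 1) * N ≤ 18 * n * ((n + 1) ^ (1 / 3 : ℝ) * (6 * h + 1) ^ (2 / 3 : ℝ))) :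
    (d + 1) * N ^ 3 ≤ 280 ^ 3 * n ^ 4 := by
  set z : ℝ := (n + 1) ^ (1 / 3 : ℝ) * (6 * h + 1) ^ (2 / 3 : ℝ) with hz
  have hz3 : z ^ 3 = (n + 1) * (6 * h + 1) ^ 2 := by
    rw [hz, mul_pow, ← Real.rpow_natCast, ← Real.rpow_mul (by linarith),
      ← Real.rpow_natCast ((6 * h + 1) ^ (2 / 3 : ℝ)), ← Real.rpow_mul (by linarith)]
    norm_num
  have h1 : ((h + 1) * N) ^ 3 ≤ (18 * n * z) ^ 3 := by
    apply pow_le_pow_left₀ (by positivity) hb
  have h2 : (18 * n * z) ^ 3 = 5832 * n ^ 3 * ((n + 1) * (6 * h + 1) ^ 2) := by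
    rw [mul_pow, hz3]; ring
  have h3 : 5832 * n ^ 3 * ((n + 1) * (6 * h + 1) ^ 2) ≤
      5832 * n ^ 3 * ((2 * n) * (36 * (h + 1) ^ 2)) := by
    have : (6 * h + 1) ^ 2 ≤ 36 * (h + 1) ^ 2 := by nlinarith
    have : (n + 1) * (6 * h + 1) ^ 2 ≤ (2 * n) * (36 * (h + 1) ^ 2) :=
      mul_le_mul (by linarith) this (by positivity) (by positivity)
    exact mul_le_mul_of_nonneg_left this (by positivity)
  have h4 : (h + 1) ^ 2 * ((h + 1) * N ^ 3) ≤ (h + 1) ^ 2 * (5832 * 72 * n ^ 4) := by
    calc (h + 1) ^ 2 * ((h + 1) * N ^ 3) = ((h + 1) * N) ^ 3 := by ring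
      _ ≤ 5832 * n ^ 3 * ((2 * n) * (36 * (h + 1) ^ 2)) := by linarith
      _ = _ := by ring
  have h5 : (h + 1) * N ^ 3 ≤ 5832 * 72 * n ^ 4 := le_of_mul_le_mul_left h4 (by positivity)
  calc (d + 1) * N ^ 3 ≤ 48 * (h + 1) * N ^ 3 := by gcongr
    _ = 48 * ((h + 1) * N ^ 3) := by ring
    _ ≤ 48 * (5832 * 72 * n ^ 4) := by linarith
    _ ≤ 280 ^ 3 * n ^ 4 := by
      have : 0 ≤ n ^ 4 := by positivity
      nlinarith

/-- **Few deletions** (cubic form). -/
theorem few_del {P : Finset (ℝ × ℝ)} (hP : GeneralPosition P) {d : ℕ} (hd : d ≤ #P) :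
    ∃ R ⊆ P, (Even #P → Even #R) ∧ #P ≤ #R + d ∧
      ((d : ℝ) + 1) * ({L | IsBisector R L}.ncard : ℝ) ^ 3 ≤ 280 ^ 3 * (#P : ℝ) ^ 4 := by
  classical
  rcases Nat.eq_zero_or_pos #P with h0 | h0
  · refine ⟨P, Subset.rfl, fun h => h, by omega, ?_⟩
    have hemp : {L | IsBisector P L} = ∅ := by
      rw [Set.eq_empty_iff_forall_notMem]
      rintro L ⟨a, b, c, -, -, ⟨p, hp, -⟩, -⟩
      rw [card_eq_zero.mp h0] at hp
      exact absurd hp (notMem_empty _)
    rw [hemp, Set.ncard_empty]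
    have : (0 : ℝ) ≤ 280 ^ 3 * (#P : ℝ) ^ 4 := by positivity
    simp
  obtain ⟨ε, hε⟩ := exists_shear P
  obtain ⟨n, hn⟩ : ∃ n, #P = n := ⟨_, rfl⟩
  set p : Fin n → ℝ × ℝ := fun i => (P.equivFinOfCardEq hn).symm i with hpdef
  have hpP : ∀ i, p i ∈ P := fun i => ((P.equivFinOfCardEq hn).symm i).2
  have hpinj : Function.Injective p := fun i j h =>
    (P.equivFinOfCardEq hn).symm.injective (Subtype.ext h)
  have hpsurj : ∀ x ∈ P, ∃ i, p i = x := by
    intro x hx
    refine ⟨P.equivFinOfCardEq hn ⟨x, hx⟩, ?_⟩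
    rw [hpdef]
    simp
  have hinj : Function.Injective (sa ε p) := by
    intro i j h
    exact hpinj (hε _ (hpP i) _ (hpP j) h)
  have hS := simple_sh hinj hpP hP
  have hw : ∀ (D : Finset (Fin n)) (h : ℕ), (h + 1) * #(Hc (sa ε p) (sb p) D) ≤
      #{q ∈ pr (sa ε p) | #(lo (sa ε p) (sb p) q) ≤ #(up (sa ε p) (sb p) q) + 2 * 3 * h ∧
        #(up (sa ε p) (sb p) q) ≤ #(lo (sa ε p) (sb p) q) + 2 * 3 * h} →
      #D ≤ 2 * 3 * h → Even #D → 6 * h ≤ d → d + 1 ≤ 48 * (h + 1) →
      ∃ R ⊆ P, (Even #P → Even #R) ∧ #P ≤ #R + d ∧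
        ((d : ℝ) + 1) * ({L | IsBisector R L}.ncard : ℝ) ^ 3 ≤ 280 ^ 3 * (#P : ℝ) ^ 4 := by
    intro D h hH hD hDe hd6 hd48
    have hcard : #(Dᶜ.image p) + #D = n := by
      rw [card_image_of_injective _ hpinj, card_compl, Fintype.card_fin]
      have := card_le_univ D
      rw [Fintype.card_fin] at this
      omega
    refine ⟨Dᶜ.image p, ?_, ?_, ?_, ?_⟩
    · intro x hx
      obtain ⟨i, -, rfl⟩ := mem_image.mp hx
      exact hpP i
    · intro hE
      rw [hn, ← hcard] at hE
      exact (Nat.even_add.mp hE).mpr hDe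
    · omega
    · have h1 := bis_le_Hc hinj D
      have h2 := window_le hS (2 * 3 * h)
      have h3 : (((h + 1) * #(Hc (sa ε p) (sb p) D) : ℕ) : ℝ) ≤
          18 * n * (((n : ℝ) + 1) ^ (1 / 3 : ℝ) * (((2 * 3 * h : ℕ) : ℝ) + 1) ^ (2 / 3 : ℝ)) :=
        le_trans (by exact_mod_cast hH) h2
      push_cast at h3
      have h4 : (h + 1 : ℝ) * ({L | IsBisector (Dᶜ.image p) L}.ncard : ℝ) ≤
          18 * n * (((n : ℝ) + 1) ^ (1 / 3 : ℝ) * (6 * (h : ℝ) + 1) ^ (2 / 3 : ℝ)) := by
        have h5 : ({L | IsBisector (Dᶜ.image p) L}.ncard : ℝ) ≤ #(Hc (sa ε p) (sb p) D) := by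
          exact_mod_cast h1
        refine le_trans ?_ h3
        gcongr
      rw [hn]
      apply cube_bound (h := (h : ℝ)) (by positivity) (by exact_mod_cast (by omega : 1 ≤ n))
        (by positivity) (by exact_mod_cast hd48) h4
  rcases Nat.eq_zero_or_pos (d / 48) with hh | hh
  · obtain ⟨D, h1, h2, h3⟩ := del_core (a := sa ε p) (B := sb p) (h := 0)
      (fun _ : Fin 3 => (∅ : Finset (Fin n))) (fun _ _ _ => disjoint_empty_left _)
      (fun _ => by simp) (fun _ _ => ⟨0, Or.inl (fun l hl => absurd hl (notMem_empty l))⟩)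
    exact hw D 0 h3 h1 h2 (by omega) (by omega)
  · obtain ⟨A, h1, h2, h3⟩ := exists_sep (B := sb p) hinj hS.2 (m := n / 3) (by omega) (by omega)
    obtain ⟨D, g1, g2, g3⟩ := del_core (a := sa ε p) (B := sb p) (h := d / 48) A h1
      (fun s => by have := h2 s; omega) h3
    exact hw D (d / 48) g3 g1 g2 (by omega) (by omega)

end Pool.Agent.Q236.HB
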