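import Mathlib
import Pool.Agent.W296.HL3
import Pool.Agent.H189R2.Lev.Lines

/-!
# Duality: bisectors of a point set and crossings at the middle level of the dual lines
-/

set_option autoImplicit false

namespace Pool.Agent.Q236.HB

open Finset
open Pool.Agent.W296.HL (Line GeneralPosition IsBisector)
open Pool.Agent.H189R2.Lev (ht cr ht_cr)

open scoped Classical in
/-- the set of the points `(a i, B i)` -/
noncomputable def pts {n : ℕ} (a B : Fin n → ℝ) : Finset (ℝ × ℝ) :=
  univ.image fun i => (a i, B i)

lemma mem_pts {n : ℕ} {a B : Fin n → ℝ} {p : ℝ × ℝ} : p ∈ pts a B ↔ ∃ i, (a i, B i) = p := by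
  classical
  simp [pts]

lemma card_pts {n : ℕ} {a B : Fin n → ℝ} (ha : Function.Injective a) : (pts a B).card = n := by
  classical
  unfold pts
  rw [card_image_of_injective]
  · simp
  · intro i j h
    exact ha (congrArg Prod.fst h)

lemma card_filter_pts {n : ℕ} {a B : Fin n → ℝ} (ha : Function.Injective a)
    (q : ℝ × ℝ → Prop) [DecidablePred q] :
    ((pts a B).filter q).card = {l | q (a l, B l)}.ncard := by
  classical
  unfold pts
  rw [Finset.filter_image, card_image_of_injective, ← Set.ncard_coe_finset]
  · congr 1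
    ext l
    simp
  · intro i j h
    exact ha (congrArg Prod.fst h)

/-- no three of the dual lines pass through a common point -/
lemma gp_pts {n : ℕ} {a B : Fin n → ℝ} (ha : Function.Injective a)
    (hS : ∀ i j l, i ≠ j → i ≠ l → j ≠ l →
      ¬ ∃ x, ht a B i x = ht a B j x ∧ ht a B i x = ht a B l x) :
    GeneralPosition (pts a B) := by
  intro u v w huv p hp q hq r hr hpq hpr hqr ⟨h1, h2, h3⟩
  obtain ⟨i, rfl⟩ := mem_pts.mp hp
  obtain ⟨j, rfl⟩ := mem_pts.mp hq
  obtain ⟨l, rfl⟩ := mem_pts.mp hr
  have hij : i ≠ j := by rintro rfl; exact hpq rfl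
  have hil : i ≠ l := by rintro rfl; exact hpr rfl
  have hjl : j ≠ l := by rintro rfl; exact hqr rfl
  simp only [Line, Set.mem_ofPred_eq] at h1 h2 h3
  have hv : v ≠ 0 := by
    intro hv
    subst hv
    have hu : u ≠ 0 := by
      rcases huv with h | h
      · exact h
      · exact absurd rfl h
    apply hij
    apply ha
    have : u * a i = u * a j := by linarith
    exact mul_left_cancel₀ hu this
  apply hS i j l hij hil hjl
  refine ⟨u / v, ?_, ?_⟩
  · unfold ht
    have : a i * u + B i * v = a j * u + B j * v := by linarith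
    field_simp
    linarith
  · unfold ht
    have : a i * u + B i * v = a l * u + B l * v := by linarith
    field_simp
    linarith

/-- pairs `i < j` whose dual lines cross with exactly `k` lines strictly below -/
def crs {n : ℕ} (a B : Fin n → ℝ) (k : ℕ) : Set (Fin n × Fin n) :=
  {q | q.1 < q.2 ∧ a q.1 ≠ a q.2 ∧
    {l | ht a B l (cr a B q.1 q.2) < ht a B q.1 (cr a B q.1 q.2)}.ncard = k}

/-- the number of bisectors is at most the number of the crossings at the middle level -/
theorem bisectors_le {n : ℕ} {a B : Fin n → ℝ} (ha : Function.Injective a) :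
    {L | IsBisector (pts a B) L}.ncard ≤ (crs a B (n / 2 - 1)).ncard := by
  classical
  -- the line of a pair
  have key : ∀ L, IsBisector (pts a B) L → ∃ q ∈ crs a B (n / 2 - 1),
      L = {x : ℝ × ℝ | cr a B q.1 q.2 * x.1 + x.2 = ht a B q.1 (cr a B q.1 q.2)} := by
    rintro L ⟨u, v, c, huv, rfl, ⟨p, hp, q, hq, hpq, hpL, hqL⟩, h1, h2⟩
    obtain ⟨i, rfl⟩ := mem_pts.mp hp
    obtain ⟨j, rfl⟩ := mem_pts.mp hq
    have hij : i ≠ j := by rintro rfl; exact hpq rfl
    simp only [Line, Set.mem_ofPred_eq] at hpL hqL
    rw [card_pts ha, card_filter_pts ha] at h1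
    rw [card_pts ha, card_filter_pts ha] at h2
    simp only at h1 h2
    have haij : a i ≠ a j := fun h => hij (ha h)
    have hv : v ≠ 0 := by
      intro hv
      subst hv
      have hu : u ≠ 0 := by
        rcases huv with h | h
        · exact h
        · exact absurd rfl h
      apply haij
      have : u * a i = u * a j := by linarith
      exact mul_left_cancel₀ hu this
    -- symmetric in i, j
    have gen : ∀ i j : Fin n, i < j → a i ≠ a j → u * a i + v * B i = c → u * a j + v * B j = c →
        ∃ q ∈ crs a B (n / 2 - 1),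
          Line u v c = {x : ℝ × ℝ | cr a B q.1 q.2 * x.1 + x.2 = ht a B q.1 (cr a B q.1 q.2)} := by
      intro i j hlt haij hi hj
      have hcr : cr a B i j = u / v := by
        unfold cr
        have h0 : a i - a j ≠ 0 := sub_ne_zero.mpr haij
        rw [div_eq_div_iff h0 hv]
        linarith
      have hht : ht a B i (cr a B i j) = c / v := by
        rw [hcr]
        unfold ht
        field_simp
        linarith
      refine ⟨(i, j), ⟨hlt, haij, ?_⟩, ?_⟩
      · simp only
        rw [hht, hcr]
        rcases lt_or_gt_of_ne hv with hv0 | hv0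
        · rw [← h2]
          congr 1
          ext l
          simp only [Set.mem_ofPred_eq]
          unfold ht
          rw [mul_div_assoc', div_add' _ _ _ hv, div_lt_div_right_of_neg hv0]
          constructor <;> intro h <;> linarith
        · rw [← h1]
          congr 1
          ext l
          simp only [Set.mem_ofPred_eq]
          unfold ht
          rw [mul_div_assoc', div_add' _ _ _ hv, div_lt_div_iff_of_pos_right hv0]
          constructor <;> intro h <;> linarith
      · simp only
        rw [hht, hcr]
        ext x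
        simp only [Line, Set.mem_ofPred_eq]
        rw [eq_div_iff hv]
        have : (u / v * x.1 + x.2) * v = u * x.1 + v * x.2 := by
          field_simp
        rw [this]
    rcases lt_or_gt_of_ne hij with h | h
    · exact gen i j h haij hpL hqL
    · exact gen j i h haij.symm hqL hpL
  have hfin : (crs a B (n / 2 - 1)).Finite := Set.toFinite _
  have hsub : {L | IsBisector (pts a B) L} ⊆
      (fun q : Fin n × Fin n =>
        {x : ℝ × ℝ | cr a B q.1 q.2 * x.1 + x.2 = ht a B q.1 (cr a B q.1 q.2)}) ''
        crs a B (n / 2 - 1) := by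
    intro L hL
    obtain ⟨q, hq, rfl⟩ := key L hL
    exact ⟨q, hq, rfl⟩
  exact (Set.ncard_le_ncard hsub (hfin.image _)).trans (Set.ncard_image_le hfin)

/-- the lines with a given height above a point: exactly two of them in general position -/
lemma count3 {n : ℕ} {a B : Fin n → ℝ}
    (hS : ∀ i j l, i ≠ j → i ≠ l → j ≠ l →
      ¬ ∃ x, ht a B i x = ht a B j x ∧ ht a B i x = ht a B l x) {i j : Fin n} (hij : i ≠ j) {x : ℝ}
    (hx : ht a B i x = ht a B j x) :
    {l | ht a B i x < ht a B l x}.ncard + {l | ht a B l x < ht a B i x}.ncard + 2 = n := by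
  classical
  have e1 : {l | ht a B i x < ht a B l x} =
      ((univ.filter (fun l => ht a B i x < ht a B l x) : Finset _) : Set _) := by
    ext l; simp
  have e2 : {l | ht a B l x < ht a B i x} =
      ((univ.filter (fun l => ht a B l x < ht a B i x) : Finset _) : Set _) := by
    ext l; simp
  rw [e1, e2, Set.ncard_coe_finset, Set.ncard_coe_finset]
  have h1 := Finset.card_filter_add_card_filter_not (s := univ)
    (fun l => ht a B i x < ht a B l x)
  have h2 := Finset.card_filter_add_card_filter_not
    (s := univ.filter (fun l => ¬ ht a B i x < ht a B l x))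
    (fun l => ht a B l x < ht a B i x)
  have h3 : (univ.filter (fun l => ¬ ht a B i x < ht a B l x)).filter
      (fun l => ht a B l x < ht a B i x) = univ.filter (fun l => ht a B l x < ht a B i x) := by
    ext l
    simp only [mem_filter, mem_univ, true_and, not_lt]
    exact ⟨fun h => h.2, fun h => ⟨h.le, h⟩⟩
  have h4 : (univ.filter (fun l => ¬ ht a B i x < ht a B l x)).filter
      (fun l => ¬ ht a B l x < ht a B i x) = {i, j} := by
    ext l
    simp only [mem_filter, mem_univ, true_and, not_lt, mem_insert, mem_singleton]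
    constructor
    · rintro ⟨h5, h6⟩
      by_contra hcon
      push Not at hcon
      exact hS i j l hij (Ne.symm hcon.1) (Ne.symm hcon.2) ⟨x, hx, le_antisymm h6 h5⟩
    · rintro (rfl | rfl)
      · exact ⟨le_rfl, le_rfl⟩
      · exact ⟨hx.ge, hx.le⟩
  rw [h3, h4, card_pair hij] at h2
  simp only [card_univ, Fintype.card_fin] at h1
  omega

/-- in general position, the number of the bisectors equals the number of the crossings at the
middle level -/
theorem bisectors_eq {n : ℕ} {a B : Fin n → ℝ} (ha : Function.Injective a) (hn : Even n)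
    (hS : ∀ i j l, i ≠ j → i ≠ l → j ≠ l →
      ¬ ∃ x, ht a B i x = ht a B j x ∧ ht a B i x = ht a B l x) :
    {L | IsBisector (pts a B) L}.ncard = (crs a B (n / 2 - 1)).ncard := by
  classical
  refine le_antisymm (bisectors_le ha) ?_
  have hgp := gp_pts ha hS
  refine Set.ncard_le_ncard_of_injOn (fun q : Fin n × Fin n =>
        Line (cr a B q.1 q.2) 1 (ht a B q.1 (cr a B q.1 q.2))) ?_ ?_
    (Pool.Agent.W296.HL.bis_finite _)
  · rintro ⟨i, j⟩ ⟨hlt, haij, hc⟩
    simp only at hlt haij hc ⊢
    have h5 := ht_cr (B := B) haij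
    have h6 := count3 hS hlt.ne h5.symm
    have hE : 2 * (n / 2) = n := Nat.two_mul_div_two_of_even hn
    refine ⟨_, _, _, Or.inr one_ne_zero, rfl, ⟨(a i, B i), mem_pts.mpr ⟨i, rfl⟩, (a j, B j),
      mem_pts.mpr ⟨j, rfl⟩, fun h => hlt.ne (ha (congrArg Prod.fst h)), ?_, ?_⟩, ?_, ?_⟩
    · simp only [Line, Set.mem_ofPred_eq]
      unfold ht
      ring
    · simp only [Line, Set.mem_ofPred_eq]
      rw [← h5]
      unfold ht
      ring
    · rw [card_pts ha, card_filter_pts ha, ← hc]
      congr 1
      ext l
      simp only [Set.mem_ofPred_eq]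
      have : cr a B i j * a l + 1 * B l = ht a B l (cr a B i j) := by unfold ht; ring
      rw [this]
    · rw [card_pts ha, card_filter_pts ha]
      have : {l | ht a B i (cr a B i j) < cr a B i j * (a l, B l).1 + 1 * (a l, B l).2} =
          {l | ht a B i (cr a B i j) < ht a B l (cr a B i j)} := by
        ext l
        simp only [Set.mem_ofPred_eq]
        have : cr a B i j * a l + 1 * B l = ht a B l (cr a B i j) := by unfold ht; ring
        rw [this]
      rw [this]
      omega
  · rintro ⟨i, j⟩ ⟨hlt, haij, hc⟩ ⟨i', j'⟩ ⟨hlt', haij', hc'⟩ h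
    simp only at hlt haij hc hlt' haij' hc' h
    have mem1 : ∀ i j : Fin n, (a i, B i) ∈ Line (cr a B i j) 1 (ht a B i (cr a B i j)) := by
      intro i j
      simp only [Line, Set.mem_ofPred_eq]
      unfold ht
      ring
    have mem2 : ∀ i j : Fin n, a i ≠ a j →
        (a j, B j) ∈ Line (cr a B i j) 1 (ht a B i (cr a B i j)) := by
      intro i j hij
      rw [← ht_cr (B := B) hij]
      simp only [Line, Set.mem_ofPred_eq]
      unfold ht
      ring
    have hne : ∀ i j : Fin n, i ≠ j → (a i, B i) ≠ (a j, B j) := by
      intro i j hij h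
      exact hij (ha (congrArg Prod.fst h))
    have only : ∀ l : Fin n, (a l, B l) ∈ Line (cr a B i j) 1 (ht a B i (cr a B i j)) →
        l = i ∨ l = j := by
      intro l hl
      by_contra hcon
      push Not at hcon
      exact hgp (cr a B i j) 1 (ht a B i (cr a B i j)) (Or.inr one_ne_zero)
        (a i, B i) (mem_pts.mpr ⟨i, rfl⟩) (a j, B j) (mem_pts.mpr ⟨j, rfl⟩)
        (a l, B l) (mem_pts.mpr ⟨l, rfl⟩) (hne _ _ hlt.ne) (hne _ _ (Ne.symm hcon.1))
        (hne _ _ (Ne.symm hcon.2)) ⟨mem1 i j, mem2 i j haij, hl⟩
    have h1 := only i' (by rw [h]; exact mem1 i' j')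
    have h2 := only j' (by rw [h]; exact mem2 i' j' haij')
    rcases h1 with rfl | rfl <;> rcases h2 with rfl | rfl
    · exact absurd hlt' (lt_irrefl _)
    · rfl
    · exact absurd (hlt.trans hlt') (lt_irrefl _)
    · exact absurd hlt' (lt_irrefl _)

end Pool.Agent.Q236.HB
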