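import Pool.Agent.Q236.HB.AddFin
import Pool.Agent.TH124.KE.Lev

/-!
# Adding few lines so that a level has few vertices
-/

set_option autoImplicit false

namespace Pool.Agent.Q236.HB

open Finset Filter
open Pool.Agent.W296.HL (Line GeneralPosition)
open Pool.Agent.H189R2.Lev (ht cr ht_cr)
open Pool.Agent.H189R2.Iid (GP T lev mem_T low)
open Pool.Agent.Results.MP_a08d0a_co.SmoothedLevel (Simple psi psi_le crossings)
open Pool.Agent.TH124.KE (kes mem_kes bel hh KE crossings_le)

variable {n : ℕ}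

open scoped Classical in
/-- windows of levels -/
theorem window_lo {a B : Fin n → ℝ} (hS : Simple a B) (W : Finset ℕ) {K : ℕ}
    (hW : ∀ k ∈ W, k ≤ K) :
    (#{q ∈ pr a | #(lo a B q) ∈ W} : ℝ) ≤
      18 * n * (((K : ℝ) + 1) ^ (1 / 3 : ℝ) * (#W : ℝ) ^ (2 / 3 : ℝ)) := by
  obtain ⟨P, hGP, hP⟩ := Pool.Agent.Y344.KD.exists_GP hS
  have hsub : ({q ∈ pr a | #(lo a B q) ∈ W} : Finset (Fin n × Fin n)) ⊆
      Pool.Agent.Y344.KD.EW P W := by
    intro q hq
    rw [mem_filter] at hq
    obtain ⟨hq, h1⟩ := hq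
    have h4 := hP q.1 q.2 (mem_pr.mp hq)
    have h5 : lev P q = #(lo a B q) := by
      unfold lev lo
      congr 1
      ext l
      rw [mem_filter, mem_filter]
      exact and_congr_right fun _ => h4.2 l
    unfold Pool.Agent.Y344.KD.EW
    rw [mem_filter, mem_T, h5]
    exact ⟨h4.1, h1⟩
  have h7 : (#{q ∈ pr a | #(lo a B q) ∈ W} : ℝ) ≤
      #(Pool.Agent.Y344.KD.EW P W) := by exact_mod_cast card_le_card hsub
  exact h7.trans (Pool.Agent.Y344.KD.window hGP W hW)

/-- slopes with the added lines -/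
noncomputable def aa (a : Fin n → ℝ) (X : ℝ) (N : ℕ) : Fin (n + N) → ℝ :=
  Fin.append a fun t => X + ((t : ℕ) + 1 : ℕ)

/-- intercepts with the added lines -/
noncomputable def bb (B : Fin n → ℝ) (Y : ℝ) (N : ℕ) : Fin (n + N) → ℝ :=
  Fin.append B fun t => -(Y - (((t : ℕ) + 1 : ℕ) : ℝ) ^ 2)

variable {a B : Fin n → ℝ} {X Y : ℝ} {N M : ℕ}

lemma aa_left (i : Fin n) : aa a X N (Fin.castAdd N i) = a i := Fin.append_left _ _ _
lemma bb_left (i : Fin n) : bb B Y N (Fin.castAdd N i) = B i := Fin.append_left _ _ _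
lemma aa_right (t : Fin N) : aa a X N (Fin.natAdd n t) = X + ((t : ℕ) + 1 : ℕ) :=
  Fin.append_right _ _ _
lemma bb_right (t : Fin N) : bb B Y N (Fin.natAdd n t) = -(Y - (((t : ℕ) + 1 : ℕ) : ℝ) ^ 2) :=
  Fin.append_right _ _ _

lemma aa_inj (ha : Function.Injective a) (hX : ∀ i, a i ≤ X) : Function.Injective (aa a X N) := by
  intro i j
  refine Fin.addCases (fun i => ?_) (fun t => ?_) i <;>
    refine Fin.addCases (fun j => ?_) (fun s => ?_) j
  · rw [aa_left, aa_left]
    intro h
    rw [ha h]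
  · rw [aa_left, aa_right]
    intro h
    have := hX i
    push_cast at h
    have h3 : (0 : ℝ) ≤ (s : ℕ) := Nat.cast_nonneg _
    linarith
  · rw [aa_left, aa_right]
    intro h
    have := hX j
    push_cast at h
    have h3 : (0 : ℝ) ≤ (t : ℕ) := Nat.cast_nonneg _
    linarith
  · rw [aa_right, aa_right]
    intro h
    have h2 : (((t : ℕ) + 1 : ℕ) : ℝ) = (((s : ℕ) + 1 : ℕ) : ℝ) := by linarith
    have h3 : (t : ℕ) + 1 = (s : ℕ) + 1 := by exact_mod_cast h2
    rw [show t = s from Fin.ext (by omega)]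

lemma ht_neg (i : Fin n) (x : ℝ) : ht a (fun i => -B i) i x = -ht a B i (-x) := by
  unfold ht; ring

lemma cr_neg (i j : Fin n) : cr a (fun i => -B i) i j = -cr a B i j := by
  unfold cr
  rw [← neg_div]
  congr 1
  ring

lemma simple_neg (hS : Simple a B) : Simple a (fun i => -B i) := by
  refine ⟨fun i j hij h h' => hS.1 i j hij h (by linarith), ?_⟩
  rintro i j l hij hil hjl ⟨x, h1, h2⟩
  rw [ht_neg, ht_neg] at h1 h2
  exact hS.2 i j l hij hil hjl ⟨-x, by linarith, by linarith⟩

lemma simple_aa (ha : Function.Injective a) (hS : Simple a B) (hNM : N ≤ M)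
    (hG : Good a (fun i => -B i) X Y M) : Simple (aa a X N) (bb B Y N) := by
  have hgp := gp_aug ha (simple_neg hS) hNM hG
  have hinj := aa_inj (N := N) ha hG.left
  have hmem : ∀ i, ((aa a X N i, - bb B Y N i) : ℝ × ℝ) ∈ aug a (fun i => -B i) X Y N := by
    intro i
    rw [mem_aug]
    refine Fin.addCases (fun i => ?_) (fun t => ?_) i
    · left
      exact ⟨i, by rw [aa_left, bb_left]⟩
    · right
      refine ⟨(t : ℕ) + 1, ⟨by omega, by have := t.2; omega⟩, ?_⟩
      rw [aa_right, bb_right]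
      unfold zp
      rw [neg_neg]
  have hs := simple_sh (ε := 0) (p := fun i => (aa a X N i, - bb B Y N i)) (by
    intro i j h
    unfold sa at h
    simp only [zero_mul, add_zero] at h
    exact hinj h) hmem hgp
  refine ⟨fun i j hij h => absurd (hinj h) hij, ?_⟩
  rintro i j l hij hil hjl ⟨x, h1, h2⟩
  apply hs.2 i j l hij hil hjl
  refine ⟨-x, ?_, ?_⟩
  · unfold ht sa sb
    unfold ht at h1
    simp only
    linarith
  · unfold ht sa sb
    unfold ht at h2
    simp only
    linarith

open scoped Classical in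
/-- old crossings at level `k` of the new arrangement -/
noncomputable def Ek (a B : Fin n → ℝ) (N k : ℕ) : Finset (Fin n × Fin n) :=
  (pr a).filter fun q => #(lo a B q) + N = k

open scoped Classical in
/-- the edges at level `k` of the new arrangement -/
theorem kes_le (ha : Function.Injective a) (hS : Simple a B) (hNM : N ≤ M)
    (hG : Good a (fun i => -B i) X Y M) (k : ℕ) :
    #(kes (Pool.Agent.TH124.KE.pts (aa a X N) (bb B Y N)) k) ≤ #(Ek a B N k) + 4 * (n + N) := by
  have hinj := aa_inj (N := N) ha hG.left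
  have hSs := simple_aa ha hS hNM hG
  set Q := Pool.Agent.TH124.KE.pts (aa a X N) (bb B Y N) with hQ
  have hgp : Pool.Agent.TH124.KE.GP Q := Pool.Agent.TH124.KE.gp_pts hinj hSs
  have hQn : #Q = n + N := Pool.Agent.TH124.KE.card_pts hinj
  set Z : Finset (ℝ × ℝ) := univ.image fun t : Fin N =>
    ((aa a X N (Fin.natAdd n t), bb B Y N (Fin.natAdd n t)) : ℝ × ℝ) with hZ
  -- edges at an added point
  have hinc := Pool.Agent.Y429.HalvFew.inc_le (k := k) hgp (c := 1) (fun _ => Z) (by
    intro _ z hz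
    obtain ⟨t, -, rfl⟩ := mem_image.mp hz
    refine ⟨2 * (((t : ℕ) + 1 : ℕ) : ℝ), Or.inr ?_⟩
    intro w hw
    obtain ⟨s, -, rfl⟩ := mem_image.mp hw
    unfold hh
    simp only [aa_right, bb_right]
    nlinarith [sq_nonneg ((((t : ℕ) + 1 : ℕ) : ℝ) - (((s : ℕ) + 1 : ℕ) : ℝ))])
  rw [hQn, mul_one] at hinc
  rw [← card_filter_add_card_filter_not (s := kes Q k)
    (fun e => (∃ _i : Fin 1, e.1 ∈ Z) ∨ (∃ _i : Fin 1, e.2 ∈ Z))]
  rw [add_comm]
  refine Nat.add_le_add ?_ hinc
  -- edges between old points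
  have hold : ∀ p ∈ Q, p ∉ Z → ∃ i : Fin n, (aa a X N (Fin.castAdd N i),
      bb B Y N (Fin.castAdd N i)) = p := by
    intro p hp hpZ
    obtain ⟨i, -, rfl⟩ := mem_image.mp hp
    revert hpZ
    refine Fin.addCases (fun i => ?_) (fun t => ?_) i
    · intro _
      exact ⟨i, rfl⟩
    · intro hpZ
      exact absurd (mem_image.mpr ⟨t, mem_univ _, rfl⟩) hpZ
  have hlo : ∀ i j : Fin n, a j < a i →
      bel Q (-cr a B i j) ((a j, B j) : ℝ × ℝ) = #(lo a B (i, j)) + N := by
    intro i j hij
    have hcr := ht_cr (a := a) (B := B) hij.ne'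
    unfold bel
    rw [hQ]
    unfold Pool.Agent.TH124.KE.pts
    rw [filter_image, card_image_of_injective _ (Pool.Agent.TH124.KE.pt_inj hinj)]
    have e1 : (univ.filter fun l : Fin (n + N) => hh (-cr a B i j)
        (Pool.Agent.TH124.KE.pt (aa a X N) (bb B Y N) l) < hh (-cr a B i j) (a j, B j)) =
        (lo a B (i, j)).map (Fin.castAddEmb N) ∪ univ.map (Fin.natAddEmb n) := by
      ext l
      simp only [mem_filter, mem_univ, true_and, mem_union, Finset.mem_map]
      refine Fin.addCases (fun l => ?_) (fun t => ?_) l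
      · constructor
        · intro h
          left
          refine ⟨l, ?_, rfl⟩
          rw [mem_lo]
          simp only
          rw [← hcr]
          unfold hh Pool.Agent.TH124.KE.pt at h
          simp only [aa_left, bb_left] at h
          unfold ht
          linarith
        · rintro (⟨l', hl', h⟩ | ⟨t, h⟩)
          · have : l' = l := Fin.castAdd_injective _ _ h
            subst this
            rw [mem_lo] at hl'
            simp only at hl'
            rw [← hcr] at hl'
            unfold hh Pool.Agent.TH124.KE.pt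
            simp only [aa_left, bb_left]
            unfold ht at hl'
            linarith
          · exfalso
            have h1 : (n + (t : ℕ)) = (l : ℕ) := congrArg Fin.val h
            have := l.2
            omega
      · constructor
        · intro _
          right
          exact ⟨t, rfl⟩
        · intro _
          unfold hh Pool.Agent.TH124.KE.pt
          simp only [aa_right, bb_right]
          have h1 := hG.abv i j hij ((t : ℕ) + 1) (mem_range.mpr (by have := t.2; omega))
          rw [cr_neg, ht_neg, neg_neg, ← hcr] at h1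
          unfold ht at h1
          push_cast at h1 ⊢
          linarith
    rw [e1, card_union_of_disjoint, card_map, card_map, card_univ, Fintype.card_fin]
    rw [disjoint_left]
    intro l hl hl'
    obtain ⟨x, -, rfl⟩ := Finset.mem_map.mp hl
    obtain ⟨y, -, h⟩ := Finset.mem_map.mp hl'
    have h1 : (n + (y : ℕ)) = (x : ℕ) := congrArg Fin.val h
    have := x.2
    omega
  -- the index pair of an edge
  have hex : ∀ e ∈ (kes Q k).filter
      (fun e => ¬ ((∃ _i : Fin 1, e.1 ∈ Z) ∨ (∃ _i : Fin 1, e.2 ∈ Z))),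
      ∃ q ∈ Ek a B N k, e = ((a q.2, B q.2), (a q.1, B q.1)) := by
    intro e he
    rw [mem_filter, mem_kes] at he
    obtain ⟨⟨h1, h2, h3, h4⟩, h5⟩ := he
    push Not at h5
    obtain ⟨j, hj⟩ := hold _ h1 (h5.1 0)
    obtain ⟨i, hi⟩ := hold _ h2 (h5.2 0)
    rw [aa_left, bb_left] at hi hj
    obtain ⟨e1, e2⟩ := e
    simp only at h1 h2 h3 h4 hi hj
    subst hi hj
    refine ⟨(i, j), ?_, rfl⟩
    unfold Ek
    rw [mem_filter]
    refine ⟨mem_pr.mpr h3, ?_⟩
    rw [← hlo i j h3, ← h4]
    congr 1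
    unfold cr Pool.Agent.TH124.KE.sl
    simp only
    rw [← neg_div]
    congr 1
    ring
  apply card_le_card_of_surjOn
    (fun q : Fin n × Fin n => (((a q.2, B q.2), (a q.1, B q.1)) : (ℝ × ℝ) × (ℝ × ℝ)))
  intro e he
  obtain ⟨q, hq, h⟩ := hex e (mem_coe.mp he)
  exact ⟨q, mem_coe.mpr hq, h.symm⟩

/-- **Adding few lines** (cubic form). -/
theorem lev_add (ha : Function.Injective a) (hS : Simple a B) (k d : ℕ) :
    ∃ N ≤ d, ∃ a' B' : Fin (n + N) → ℝ, (∀ i, a' (Fin.castAdd N i) = a i) ∧
      (∀ i, B' (Fin.castAdd N i) = B i) ∧ Function.Injective a' ∧ Simple a' B' ∧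
      ∃ F : ℕ, (k < n + N → psi a' B' k ≤ ((F + 8 * (n + N) : ℕ) : ℕ∞)) ∧
        ((d : ℝ) + 1) * (F : ℝ) ^ 3 ≤ 58 ^ 3 * ((n : ℝ) ^ 3 * (k + 1)) := by
  classical
  obtain ⟨X, Y, hG⟩ := exists_good a (fun i => -B i) d
  obtain ⟨u, hu⟩ := avg (m := 1) (h := d) ((pr a) ×ˢ (univ : Finset Bool))
    (fun x u => #(lo a B x.1) + (u 0 : ℕ) + (if x.2 then 1 else 0) = k) (by
      intro q hq
      refine ⟨0, ?_⟩
      intro u u' _ h1 h2
      funext s
      rw [Subsingleton.elim s 0]
      apply Fin.ext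
      omega)
  have hu0 : (u 0 : ℕ) ≤ d := by have := (u 0).2; omega
  set N : ℕ := (u 0 : ℕ) with hN
  refine ⟨N, hu0, aa a X N, bb B Y N, aa_left, bb_left, aa_inj ha hG.left,
    simple_aa ha hS hu0 hG, #(Ek a B N k) + (if k = 0 then 0 else #(Ek a B N (k - 1))), ?_, ?_⟩
  · intro hk
    have hinj := aa_inj (N := N) ha hG.left
    refine (psi_le (simple_aa ha hS hu0 hG) hk).trans ?_
    apply Nat.cast_le.mpr
    have h1 := (crossings_le (B := bb B Y N) hinj k).trans (kes_le ha hS hu0 hG k)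
    have h2 := (crossings_le (B := bb B Y N) hinj (k - 1)).trans (kes_le ha hS hu0 hG (k - 1))
    split_ifs
    · omega
    · omega
  · have h1 : #(Ek a B N k) + (if k = 0 then 0 else #(Ek a B N (k - 1))) ≤
        #{x ∈ (pr a) ×ˢ (univ : Finset Bool) |
          #(lo a B x.1) + (u 0 : ℕ) + (if x.2 then 1 else 0) = k} := by
      set F := {x ∈ (pr a) ×ˢ (univ : Finset Bool) |
        #(lo a B x.1) + (u 0 : ℕ) + (if x.2 then 1 else 0) = k} with hF
      have hsplit := card_filter_add_card_filter_not (s := F) (fun x => x.2 = false)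
      rw [← hsplit]
      apply Nat.add_le_add
      · unfold Ek
        apply card_le_card_of_injOn (fun q => (q, false))
        · intro q hq
          rw [mem_coe, mem_filter] at hq
          rw [mem_coe, mem_filter, hF, mem_filter]
          refine ⟨⟨mem_product.mpr ⟨hq.1, mem_univ _⟩, ?_⟩, rfl⟩
          simpa using hq.2
        · intro q _ q' _ h
          exact congrArg Prod.fst h
      · split_ifs with h0
        · exact Nat.zero_le _
        · unfold Ek
          apply card_le_card_of_injOn (fun q => (q, true))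
          · intro q hq
            rw [mem_coe, mem_filter] at hq
            rw [mem_coe, mem_filter, hF, mem_filter]
            refine ⟨⟨mem_product.mpr ⟨hq.1, mem_univ _⟩, ?_⟩, by simp⟩
            simp only [if_true]
            have := hq.2
            omega
          · intro q _ q' _ h
            exact congrArg Prod.fst h
    have h2 : #{x ∈ (pr a) ×ˢ (univ : Finset Bool) | ∃ u : Fin 1 → Fin (d + 1),
          #(lo a B x.1) + (u 0 : ℕ) + (if x.2 then 1 else 0) = k} ≤
        2 * #{q ∈ pr a | #(lo a B q) ∈ Icc (k - (d + 1)) k} := by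
      have hsub : ({x ∈ (pr a) ×ˢ (univ : Finset Bool) | ∃ u : Fin 1 → Fin (d + 1),
          #(lo a B x.1) + (u 0 : ℕ) + (if x.2 then 1 else 0) = k} :
            Finset ((Fin n × Fin n) × Bool)) ⊆
          {q ∈ pr a | #(lo a B q) ∈ Icc (k - (d + 1)) k} ×ˢ (univ : Finset Bool) := by
        rintro ⟨q, b⟩ hx
        rw [mem_filter] at hx
        obtain ⟨hx, v, hv⟩ := hx
        simp only at hv
        rw [mem_product, mem_filter, mem_Icc]
        have := (v 0).2
        have g9 : (if b = true then 1 else 0) ≤ 1 := by split_ifs <;> norm_num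
        refine ⟨⟨(mem_product.mp hx).1, ?_, ?_⟩, mem_univ _⟩
        · change k - (d + 1) ≤ #(lo a B q)
          omega
        · change #(lo a B q) ≤ k
          omega
      refine (card_le_card hsub).trans (le_of_eq ?_)
      rw [card_product, card_univ, Fintype.card_bool]
      ring
    have h3 := window_lo hS (Icc (k - (d + 1)) k) (K := k) (by
      intro j hj
      exact (mem_Icc.mp hj).2)
    have h4 : (#(Icc (k - (d + 1)) k) : ℝ) ≤ 2 * ((d : ℝ) + 1) := by
      have : #(Icc (k - (d + 1)) k) ≤ 2 * (d + 1) := by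
        rw [Nat.card_Icc]
        omega
      exact_mod_cast this
    set G : ℕ := #(Ek a B N k) + (if k = 0 then 0 else #(Ek a B N (k - 1))) with hGdef
    have h5 : ((d : ℝ) + 1) * G ≤ 2 * (#{q ∈ pr a | #(lo a B q) ∈ Icc (k - (d + 1)) k} : ℝ) := by
      exact_mod_cast (Nat.mul_le_mul_left _ h1).trans (hu.trans h2)
    set z : ℝ := ((k : ℝ) + 1) ^ (1 / 3 : ℝ) * (2 * ((d : ℝ) + 1)) ^ (2 / 3 : ℝ) with hz
    have hz3 : z ^ 3 = ((k : ℝ) + 1) * (2 * ((d : ℝ) + 1)) ^ 2 := by
      rw [hz, mul_pow, ← Real.rpow_natCast, ← Real.rpow_mul (by positivity),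
        ← Real.rpow_natCast ((2 * ((d : ℝ) + 1)) ^ (2 / 3 : ℝ)), ← Real.rpow_mul (by positivity)]
      norm_num
    have h6 : ((d : ℝ) + 1) * G ≤ 36 * n * z := by
      have : (#{q ∈ pr a | #(lo a B q) ∈ Icc (k - (d + 1)) k} : ℝ) ≤ 18 * n * z := by
        refine h3.trans ?_
        rw [hz]
        gcongr
      linarith
    have h7 : (((d : ℝ) + 1) * G) ^ 3 ≤ (36 * n * z) ^ 3 := pow_le_pow_left₀ (by positivity) h6 3
    have h8 : (36 * n * z) ^ 3 =
        ((d : ℝ) + 1) ^ 2 * (186624 * ((n : ℝ) ^ 3 * ((k : ℝ) + 1))) := by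
      rw [mul_pow, hz3]; ring
    have h9 : ((d : ℝ) + 1) ^ 2 * (((d : ℝ) + 1) * (G : ℝ) ^ 3) ≤
        ((d : ℝ) + 1) ^ 2 * (186624 * ((n : ℝ) ^ 3 * ((k : ℝ) + 1))) := by
      rw [← h8]
      refine le_trans (le_of_eq ?_) h7
      ring
    have h10 := le_of_mul_le_mul_left h9 (by positivity)
    refine h10.trans ?_
    have : (0 : ℝ) ≤ (n : ℝ) ^ 3 * ((k : ℝ) + 1) := by positivity
    nlinarith

end Pool.Agent.Q236.HB
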