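import Pool.Agent.Q236.HB.Del
import Pool.Agent.Y344.KD.Final
import Pool.Agent.Results.MP_a08d0a_co.IidLevel

/-!
# Moving levels of the remaining lines after few deletions
-/

set_option autoImplicit false

namespace Pool.Agent.Q236.HB

open Finset
open Pool.Agent.H189R2.Lev (ht cr ht_cr)
open Pool.Agent.H189R2.Iid (GP T lev mem_T low X2 Y2)
open Pool.Agent.Results.MP_a08d0a_co.SmoothedLevel (Simple psi)
open Pool.Agent.Results.MP_a08d0a_co.IidLevel (sl ic simple_of_GP)
open Pool.Agent.Y344.KD (sub lowSet cnt EW window psi_cnt toNat_le exists_GP)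

/-- a level that grows with the number of lines, but not too fast -/
structure Stp (κ : ℕ → ℕ) (s : ℕ) : Prop where
  up : ∀ x, κ x + 1 ≤ κ (x + s)
  dn : ∀ x, κ (x + s) + 1 ≤ κ x + s
  mono : Monotone κ
  lip : ∀ x y, x ≤ y → κ y ≤ κ x + (y - x)

lemma Stp.up' {κ : ℕ → ℕ} {s : ℕ} (h : Stp κ s) (x j : ℕ) : κ x + j ≤ κ (x + s * j) := by
  induction j with
  | zero => simp
  | succ j ih =>
    have := h.up (x + s * j)
    rw [show x + s * (j + 1) = x + s * j + s by ring]
    omega

lemma Stp.dn' {κ : ℕ → ℕ} {s : ℕ} (h : Stp κ s) (x j : ℕ) :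
    κ (x + s * j) + j ≤ κ x + s * j := by
  induction j with
  | zero => simp
  | succ j ih =>
    have := h.dn (x + s * j)
    rw [show x + s * (j + 1) = x + s * j + s by ring, show s * (j + 1) = s * j + s by ring]
    omega

variable {n : ℕ}

open scoped Classical in
/-- **deletions and moving levels** -/
theorem mov_core {P : Fin n → ℝ × ℝ} {m h s : ℕ} (A : Fin m → Finset (Fin n))
    (hd : ∀ s t, s ≠ t → Disjoint (A s) (A t)) (hA : ∀ t, s * h ≤ #(A t))
    (hs : ∀ x y : ℝ, ∃ t, (∀ l ∈ A t, ht (sl P) (ic P) l x < y) ∨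
      (∀ l ∈ A t, y < ht (sl P) (ic P) l x)) {κ : ℕ → ℕ} (hκ : Stp κ s) :
    ∃ D : Finset (Fin n), #D ≤ s * m * h ∧
      (h + 1) * (cnt P (κ #Dᶜ) D + (if κ #Dᶜ = 0 then 0 else cnt P (κ #Dᶜ - 1) D)) ≤
        2 * #(EW P (Icc (κ n - (s * m * h + 1)) (κ n + s * m * h))) := by
  -- the sets to be deleted
  have hC : ∀ (t : Fin m) (v : Fin (h + 1)), ∃ C ⊆ A t, #C = s * (v : ℕ) := by
    intro t v
    exact exists_subset_card_eq (le_trans (Nat.mul_le_mul_left _ (by have := v.2; omega)) (hA t))
  choose C hCA hCc using hC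
  set D : (Fin m → Fin (h + 1)) → Finset (Fin n) := fun u => univ.biUnion fun s => C s (u s)
    with hD
  have hCd : ∀ (u : Fin m → Fin (h + 1)) s t, s ≠ t → Disjoint (C s (u s)) (C t (u t)) :=
    fun u s t hst => (hd s t hst).mono (hCA _ _) (hCA _ _)
  have hDc : ∀ u, #(D u) = ∑ t, s * (u t : ℕ) := by
    intro u
    rw [hD]
    simp only
    rw [card_biUnion (fun s _ t _ hst => hCd u s t hst)]
    exact sum_congr rfl fun t _ => hCc t (u t)
  have hDle : ∀ u, #(D u) ≤ s * m * h := by
    intro u
    rw [hDc]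
    calc ∑ t, s * (u t : ℕ) ≤ ∑ _t : Fin m, s * h := by
          apply sum_le_sum
          intro t _
          exact Nat.mul_le_mul_left _ (by have := (u t).2; omega)
      _ = s * m * h := by rw [sum_const, card_univ, Fintype.card_fin, smul_eq_mul]; ring
  have hcompl : ∀ u, #(D u)ᶜ + #(D u) = n := by
    intro u
    have := card_add_card_compl (D u)
    rw [Fintype.card_fin] at this
    omega
  have hone : ∀ (Z : Finset (Fin n)) (t : Fin m), A t ⊆ Z → ∀ u : Fin m → Fin (h + 1),
      #(Z \ D u) + s * (u t : ℕ) = #(Z \ (univ.erase t).biUnion fun s => C s (u s)) := by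
    intro Z t hZ u
    rw [← hCc t (u t), ← card_union_of_disjoint]
    · congr 1
      ext l
      simp only [hD, mem_union, mem_sdiff, mem_biUnion, mem_univ, true_and, mem_erase, not_exists,
        not_and, and_true]
      constructor
      · rintro (⟨h1, h2⟩ | h1)
        · exact ⟨h1, fun s _ => h2 s⟩
        · refine ⟨hZ (hCA _ _ h1), ?_⟩
          intro s hst h2
          exact disjoint_left.mp (hCd u s t hst) h2 h1
      · rintro ⟨h1, h2⟩
        by_cases h3 : l ∈ C t (u t)
        · exact Or.inr h3
        · refine Or.inl ⟨h1, fun s => ?_⟩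
          by_cases hst : s = t
          · rw [hst]; exact h3
          · exact h2 s hst
    · rw [disjoint_left]
      intro l hl hl'
      rw [mem_sdiff] at hl
      exact hl.2 (mem_biUnion.mpr ⟨t, mem_univ _, hl'⟩)
  have hother : ∀ (Z : Finset (Fin n)) (t : Fin m), Disjoint Z (A t) →
      ∀ u : Fin m → Fin (h + 1),
      #(Z \ D u) = #(Z \ (univ.erase t).biUnion fun s => C s (u s)) := by
    intro Z t hZ u
    congr 1
    ext l
    simp only [hD, mem_sdiff, mem_biUnion, mem_univ, true_and, mem_erase, not_exists, not_and,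
      and_true]
    constructor
    · rintro ⟨h1, h2⟩
      exact ⟨h1, fun s _ => h2 s⟩
    · rintro ⟨h1, h2⟩
      refine ⟨h1, fun s => ?_⟩
      by_cases hst : s = t
      · rw [hst]
        intro h3
        exact disjoint_left.mp hZ h1 (hCA _ _ h3)
      · exact h2 s hst
  obtain ⟨u, hu⟩ := avg ((T P) ×ˢ (univ : Finset Bool))
    (fun x (u : Fin m → Fin (h + 1)) =>
      #(lowSet P x.1 \ D u) + (if x.2 then 1 else 0) = κ #(D u)ᶜ) (by
    rintro ⟨q, b⟩ hq
    obtain ⟨t, ht'⟩ := hs (X2 (P q.1) (P q.2)) (Y2 (P q.1) (P q.2))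
    refine ⟨t, ?_⟩
    simp only
    have hmem : ∀ l, l ∈ lowSet P q ↔
        ht (sl P) (ic P) l (X2 (P q.1) (P q.2)) < Y2 (P q.1) (P q.2) := by
      intro l
      unfold lowSet
      rw [mem_filter]
      exact ⟨fun h => h.2, fun h => ⟨mem_univ _, h⟩⟩
    have main : ∀ u u' : Fin m → Fin (h + 1), (∀ s, s ≠ t → u s = u' s) →
        #(lowSet P q \ D u) + (if b then 1 else 0) = κ #(D u)ᶜ →
        #(lowSet P q \ D u') + (if b then 1 else 0) = κ #(D u')ᶜ →
        (u t : ℕ) ≤ (u' t : ℕ) → u = u' := by
      intro u u' huu e1 e2 hle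
      have hE : (univ.erase t).biUnion (fun s => C s (u s)) =
          (univ.erase t).biUnion (fun s => C s (u' s)) := by
        apply biUnion_congr rfl
        intro s hs'
        rw [huu s (ne_of_mem_erase hs')]
      have hDD : #(D u) + s * (u' t : ℕ) = #(D u') + s * (u t : ℕ) := by
        rw [hDc, hDc, ← add_sum_erase _ _ (mem_univ t), ← add_sum_erase _ _ (mem_univ t)]
        have : ∑ x ∈ univ.erase t, s * (u x : ℕ) = ∑ x ∈ univ.erase t, s * (u' x : ℕ) :=
          sum_congr rfl fun x hx => by rw [huu x (ne_of_mem_erase hx)]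
        rw [this]
        ring
      obtain ⟨j, hj⟩ := Nat.exists_eq_add_of_le hle
      have hsj : s * (u' t : ℕ) = s * (u t : ℕ) + s * j := by rw [hj]; ring
      have hc : #(D u)ᶜ = #(D u')ᶜ + s * j := by
        have h1 := hcompl u
        have h2 := hcompl u'
        omega
      have hj0 : j = 0 := by
        rcases ht' with ht' | ht'
        · have hsub : A t ⊆ lowSet P q := fun l hl => (hmem l).mpr (ht' l hl)
          have g1 := hone _ t hsub u
          have g2 := hone _ t hsub u'
          rw [hE] at g1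
          have g3 := hκ.dn' #(D u')ᶜ j
          rw [← hc] at g3
          omega
        · have hdis : Disjoint (lowSet P q) (A t) := by
            rw [disjoint_left]
            intro l hl hl'
            exact lt_asymm (ht' l hl') ((hmem l).mp hl)
          have g1 := hother _ t hdis u
          have g2 := hother _ t hdis u'
          rw [hE] at g1
          have g3 := hκ.up' #(D u')ᶜ j
          rw [← hc] at g3
          omega
      funext x
      by_cases hx : x = t
      · rw [hx]
        apply Fin.ext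
        omega
      · exact huu x hx
    intro u u' huu e1 e2
    rcases le_total (u t : ℕ) (u' t : ℕ) with h | h
    · exact main u u' huu e1 e2 h
    · exact (main u' u (fun s hs => (huu s hs).symm) e2 e1 h).symm)
  refine ⟨D u, hDle u, ?_⟩
  have h1 : cnt P (κ #(D u)ᶜ) (D u) + (if κ #(D u)ᶜ = 0 then 0 else cnt P (κ #(D u)ᶜ - 1) (D u)) ≤
      #{x ∈ (T P) ×ˢ (univ : Finset Bool) |
        #(lowSet P x.1 \ D u) + (if x.2 then 1 else 0) = κ #(D u)ᶜ} := by
    set F := {x ∈ (T P) ×ˢ (univ : Finset Bool) |
        #(lowSet P x.1 \ D u) + (if x.2 then 1 else 0) = κ #(D u)ᶜ} with hF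
    have hsplit := card_filter_add_card_filter_not (s := F) (fun x => x.2 = false)
    rw [← hsplit]
    apply Nat.add_le_add
    · unfold cnt
      apply card_le_card_of_injOn (fun q => (q, false))
      · intro q hq
        rw [mem_coe, mem_filter] at hq
        rw [mem_coe, mem_filter, hF, mem_filter]
        refine ⟨⟨mem_product.mpr ⟨hq.1, mem_univ _⟩, ?_⟩, rfl⟩
        simpa using hq.2
      · intro q _ q' _ h
        exact congrArg Prod.fst h
    · split_ifs with h0
      · exact Nat.zero_le _
      · unfold cnt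
        apply card_le_card_of_injOn (fun q => (q, true))
        · intro q hq
          rw [mem_coe, mem_filter] at hq
          rw [mem_coe, mem_filter, hF, mem_filter]
          refine ⟨⟨mem_product.mpr ⟨hq.1, mem_univ _⟩, ?_⟩, by simp⟩
          simp only [if_true]
          have := hq.2
          omega
        · intro q _ q' _ h
          exact congrArg Prod.fst h
  have h2 : #{x ∈ (T P) ×ˢ (univ : Finset Bool) | ∃ u : Fin m → Fin (h + 1),
        #(lowSet P x.1 \ D u) + (if x.2 then 1 else 0) = κ #(D u)ᶜ} ≤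
      2 * #(EW P (Icc (κ n - (s * m * h + 1)) (κ n + s * m * h))) := by
    have hsub : ({x ∈ (T P) ×ˢ (univ : Finset Bool) | ∃ u : Fin m → Fin (h + 1),
        #(lowSet P x.1 \ D u) + (if x.2 then 1 else 0) = κ #(D u)ᶜ} :
          Finset ((Fin n × Fin n) × Bool)) ⊆
        (EW P (Icc (κ n - (s * m * h + 1)) (κ n + s * m * h))) ×ˢ (univ : Finset Bool) := by
      rintro ⟨q, b⟩ hx
      rw [mem_filter] at hx
      obtain ⟨hx, v, hv⟩ := hx
      simp only at hv
      rw [mem_product]
      refine ⟨?_, mem_univ _⟩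
      unfold EW
      rw [mem_filter]
      refine ⟨(mem_product.mp hx).1, ?_⟩
      rw [Pool.Agent.Y344.KD.lev_eq, mem_Icc]
      change κ n - (s * m * h + 1) ≤ #(lowSet P q) ∧ #(lowSet P q) ≤ κ n + s * m * h
      have g1 : #(lowSet P q) ≤ #(lowSet P q \ D v) + #(D v) := by
        have := card_le_card (show lowSet P q ⊆ (lowSet P q \ D v) ∪ D v from by
          intro l hl
          rw [mem_union, mem_sdiff]
          by_cases h : l ∈ D v
          · exact Or.inr h
          · exact Or.inl ⟨hl, h⟩)
        exact this.trans (card_union_le _ _)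
      have g3 := card_le_card (sdiff_subset (s := lowSet P q) (t := D v))
      have g5 := hDle v
      have g6 := hcompl v
      have g7 := hκ.lip #(D v)ᶜ n (by omega)
      have g8 := hκ.mono (show #(D v)ᶜ ≤ n by omega)
      have g9 : (if b = true then 1 else 0) ≤ 1 := by split_ifs <;> norm_num
      constructor
      · have : κ n ≤ κ #(D v)ᶜ + #(D v) := by omega
        omega
      · omega
    refine (card_le_card hsub).trans (le_of_eq ?_)
    rw [card_product, card_univ, Fintype.card_bool]
    ring
  refine le_trans (Nat.mul_le_mul_left _ h1) (le_trans hu ?_)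
  exact h2

end Pool.Agent.Q236.HB
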