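import Pool.Agent.Q236.HB.Mov

/-!
# Moving levels of the remaining lines after few deletions: the bound
-/

set_option autoImplicit false

namespace Pool.Agent.Q236.HB

open Finset
open Pool.Agent.H189R2.Lev (ht cr ht_cr)
open Pool.Agent.H189R2.Iid (GP T lev mem_T low X2 Y2)
open Pool.Agent.Results.MP_a08d0a_co.SmoothedLevel (Simple psi)
open Pool.Agent.Results.MP_a08d0a_co.IidLevel (sl ic simple_of_GP)
open Pool.Agent.Y344.KD (sub lowSet cnt EW window psi_cnt toNat_le exists_GP)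

variable {n : ℕ}

/-- cubing -/
lemma cube_mov {N n h d s : ℝ} (hN : 0 ≤ N) (hn : 1 ≤ n) (hh : 0 ≤ h) (hs : 1 ≤ s)
    (hdh : d + 1 ≤ 16 * s * (h + 1))
    (hb : (h + 1) * N ≤ 36 * n * ((2 * n + 1) ^ (1 / 3 : ℝ) * (6 * s * h + 2) ^ (2 / 3 : ℝ))) :
    (d + 1) * N ^ 3 ≤ (432 * s) ^ 3 * n ^ 4 := by
  set z : ℝ := (2 * n + 1) ^ (1 / 3 : ℝ) * (6 * s * h + 2) ^ (2 / 3 : ℝ) with hz
  have hsh : 0 ≤ s * h := by positivity
  have hz3 : z ^ 3 = (2 * n + 1) * (6 * s * h + 2) ^ 2 := by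
    rw [hz, mul_pow, ← Real.rpow_natCast, ← Real.rpow_mul (by linarith),
      ← Real.rpow_natCast ((6 * s * h + 2) ^ (2 / 3 : ℝ)), ← Real.rpow_mul (by nlinarith)]
    norm_num
  have h1 : ((h + 1) * N) ^ 3 ≤ (36 * n * z) ^ 3 := by
    apply pow_le_pow_left₀ (by positivity) hb
  have h2 : (36 * n * z) ^ 3 = 46656 * n ^ 3 * ((2 * n + 1) * (6 * s * h + 2) ^ 2) := by
    rw [mul_pow, hz3]; ring
  have h3 : 46656 * n ^ 3 * ((2 * n + 1) * (6 * s * h + 2) ^ 2) ≤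
      46656 * n ^ 3 * ((3 * n) * (36 * s ^ 2 * (h + 1) ^ 2)) := by
    have e1 : (6 * s * h + 2) ^ 2 ≤ (6 * s * (h + 1)) ^ 2 :=
      pow_le_pow_left₀ (by nlinarith) (by nlinarith) 2
    have e2 : (6 * s * (h + 1)) ^ 2 = 36 * s ^ 2 * (h + 1) ^ 2 := by ring
    rw [e2] at e1
    have : (2 * n + 1) * (6 * s * h + 2) ^ 2 ≤ (3 * n) * (36 * s ^ 2 * (h + 1) ^ 2) :=
      mul_le_mul (by linarith) e1 (by positivity) (by positivity)
    exact mul_le_mul_of_nonneg_left this (by positivity)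
  have h4 : (h + 1) ^ 2 * ((h + 1) * N ^ 3) ≤ (h + 1) ^ 2 * (46656 * 108 * s ^ 2 * n ^ 4) := by
    calc (h + 1) ^ 2 * ((h + 1) * N ^ 3) = ((h + 1) * N) ^ 3 := by ring
      _ ≤ 46656 * n ^ 3 * ((3 * n) * (36 * s ^ 2 * (h + 1) ^ 2)) := by linarith
      _ = _ := by ring
  have h5 : (h + 1) * N ^ 3 ≤ 46656 * 108 * s ^ 2 * n ^ 4 :=
    le_of_mul_le_mul_left h4 (by positivity)
  calc (d + 1) * N ^ 3 ≤ 16 * s * (h + 1) * N ^ 3 := by gcongr
    _ = 16 * s * ((h + 1) * N ^ 3) := by ring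
    _ ≤ 16 * s * (46656 * 108 * s ^ 2 * n ^ 4) := by gcongr
    _ = (432 * s) ^ 3 * n ^ 4 := by ring

/-- **Moving levels** (cubic form). -/
theorem mov_levels {a B : Fin n → ℝ} (hS : Simple a B) {κ : ℕ → ℕ} {s : ℕ} (hs0 : 0 < s)
    (hκ : Stp κ s) (hκn : κ n ≤ n) {d : ℕ} (hd : d ≤ n) :
    ∃ R : Finset (Fin n), n ≤ #R + d ∧ (κ #R < #R →
      psi (sub a R) (sub B R) (κ #R) ≠ ⊤ ∧
      ((d : ℝ) + 1) * ((psi (sub a R) (sub B R) (κ #R)).toNat : ℝ) ^ 3 ≤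
        (432 * s) ^ 3 * (n : ℝ) ^ 4) := by
  classical
  rcases Nat.eq_zero_or_pos n with rfl | hn
  · refine ⟨∅, by omega, fun h => ?_⟩
    simp at h
  obtain ⟨P, hGP, hP⟩ := exists_GP hS
  have hw : ∀ (D : Finset (Fin n)) (h : ℕ), #D ≤ s * 3 * h →
      (h + 1) * (cnt P (κ #Dᶜ) D + (if κ #Dᶜ = 0 then 0 else cnt P (κ #Dᶜ - 1) D)) ≤
        2 * #(EW P (Icc (κ n - (s * 3 * h + 1)) (κ n + s * 3 * h))) →
      s * 3 * h ≤ d → d + 1 ≤ 16 * s * (h + 1) →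
      ∃ R : Finset (Fin n), n ≤ #R + d ∧ (κ #R < #R →
        psi (sub a R) (sub B R) (κ #R) ≠ ⊤ ∧
        ((d : ℝ) + 1) * ((psi (sub a R) (sub B R) (κ #R)).toNat : ℝ) ^ 3 ≤
          (432 * s) ^ 3 * (n : ℝ) ^ 4) := by
    intro D h hD hH hd3 hd16
    have hcard := card_add_card_compl D
    rw [Fintype.card_fin] at hcard
    refine ⟨Dᶜ, by omega, fun hk => ?_⟩
    obtain ⟨h1, h2⟩ := toNat_le (psi_cnt hS hP D hk)
    refine ⟨h1, ?_⟩
    have h3 := window hGP (Icc (κ n - (s * 3 * h + 1)) (κ n + s * 3 * h)) (K := 2 * n) (by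
      intro k hk
      rw [mem_Icc] at hk
      omega)
    have h4 : (#(Icc (κ n - (s * 3 * h + 1)) (κ n + s * 3 * h)) : ℝ) ≤ 6 * s * h + 2 := by
      have : #(Icc (κ n - (s * 3 * h + 1)) (κ n + s * 3 * h)) ≤ 6 * s * h + 2 := by
        rw [Nat.card_Icc]
        have : 6 * s * h = 2 * (s * 3 * h) := by ring
        omega
      exact_mod_cast this
    have h5 : ((h : ℝ) + 1) * ((psi (sub a Dᶜ) (sub B Dᶜ) (κ #Dᶜ)).toNat : ℝ) ≤
        36 * n * ((2 * (n : ℝ) + 1) ^ (1 / 3 : ℝ) * (6 * (s : ℝ) * h + 2) ^ (2 / 3 : ℝ)) := by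
      have h6 : ((h : ℝ) + 1) * ((psi (sub a Dᶜ) (sub B Dᶜ) (κ #Dᶜ)).toNat : ℝ) ≤
          2 * (#(EW P (Icc (κ n - (s * 3 * h + 1)) (κ n + s * 3 * h))) : ℝ) := by
        exact_mod_cast (Nat.mul_le_mul_left _ h2).trans hH
      refine h6.trans ?_
      have h7 : (#(EW P (Icc (κ n - (s * 3 * h + 1)) (κ n + s * 3 * h))) : ℝ) ≤
          18 * n * ((2 * (n : ℝ) + 1) ^ (1 / 3 : ℝ) * (6 * (s : ℝ) * h + 2) ^ (2 / 3 : ℝ)) := by
        refine h3.trans ?_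
        push_cast
        gcongr
      linarith
    apply cube_mov (h := (h : ℝ)) (by positivity) (by exact_mod_cast hn) (by positivity)
      (by exact_mod_cast hs0) _ h5
    exact_mod_cast hd16
  rcases Nat.eq_zero_or_pos (d / (16 * s)) with hh | hh
  · obtain ⟨D, h1, h2⟩ := mov_core (P := P) (h := 0) (s := s)
      (fun _ : Fin 3 => (∅ : Finset (Fin n))) (fun _ _ _ => disjoint_empty_left _)
      (fun _ => by simp) (fun _ _ => ⟨0, Or.inl (fun l hl => absurd hl (notMem_empty l))⟩) hκ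
    have : d < 16 * s := by
      rcases Nat.div_eq_zero_iff.mp hh with h | h
      · omega
      · exact h
    exact hw D 0 h1 h2 (by omega) (by omega)
  · have hdiv : 16 * s * (d / (16 * s)) ≤ d := Nat.mul_div_le _ _
    have hdiv2 : d < 16 * s * (d / (16 * s) + 1) := Nat.lt_mul_div_succ _ (by omega)
    have hSP := simple_of_GP hGP
    have hsh : 16 * (s * (d / (16 * s))) ≤ n := by
      calc 16 * (s * (d / (16 * s))) = 16 * s * (d / (16 * s)) := by ring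
        _ ≤ n := hdiv.trans hd
    have hsh1 : 1 ≤ s * (d / (16 * s)) := Nat.mul_pos hs0 hh
    have h16 : 16 ≤ n := by omega
    obtain ⟨A, h1, h2, h3⟩ := exists_sep (a := sl P) (B := ic P)
      (fun i j h => hGP.1 i j h) hSP.2 (m := n / 3) (by omega) (by omega)
    obtain ⟨D, g1, g2⟩ := mov_core (P := P) (h := d / (16 * s)) (s := s) A h1
      (fun t => by have := h2 t; omega) h3 hκ
    have e : s * 3 * (d / (16 * s)) = 3 * (s * (d / (16 * s))) := by ring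
    have e2 : 16 * s * (d / (16 * s)) = 16 * (s * (d / (16 * s))) := by ring
    exact hw D (d / (16 * s)) g1 g2 (by omega) (by omega)

end Pool.Agent.Q236.HB
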