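import Pool.Agent.Q236.HB.Mov

/-!
# Moving levels of the remaining lines after random deletions
-/

set_option autoImplicit false

namespace Pool.Agent.Q236.HB

open Finset
open Pool.Agent.H189R2.Lev (ht cr ht_cr)
open Pool.Agent.H189R2.Iid (GP T lev mem_T low X2 Y2)
open Pool.Agent.Results.MP_a08d0a_co.SmoothedLevel (Simple psi)
open Pool.Agent.Y344.KD (sub lowSet cnt EW window psi_cnt toNat_le exists_GP bb wt wt_nonneg
  bb_nonneg bb_zero bb_sup bb_le_one sum_below EW_all sum_wt marg lev_eq)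

variable {n : ℕ}

/-- the hockey-stick identity -/
theorem sum_choose_zero (n v : ℕ) :
    ∑ j ∈ range (n + 1), j.choose v = (n + 1).choose (v + 1) := by
  induction n with
  | zero =>
    rcases v with _ | v
    · simp
    · simp [Nat.choose_eq_zero_of_lt (show 1 < v + 1 + 1 by omega)]
  | succ n ih =>
    rw [sum_range_succ, ih, Nat.choose_succ_succ (n + 1) v]
    ring

/-- a double Pascal identity -/
theorem sum_choose (n v w : ℕ) :
    ∑ j ∈ range (n + 1), j.choose v * (n - j).choose w = (n + 1).choose (v + w + 1) := by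
  induction n generalizing w with
  | zero =>
    simp only [zero_add, range_one, sum_singleton, Nat.sub_self]
    rcases v with _ | v <;> rcases w with _ | w
    · simp
    · rw [Nat.choose_zero_succ, mul_zero, Nat.choose_eq_zero_of_lt (by omega)]
    · rw [Nat.choose_zero_succ, zero_mul, Nat.choose_eq_zero_of_lt (by omega)]
    · rw [Nat.choose_zero_succ, zero_mul, Nat.choose_eq_zero_of_lt (by omega)]
  | succ n ih =>
    rcases w with _ | w
    · simp only [Nat.choose_zero_right, mul_one, add_zero]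
      exact sum_choose_zero (n + 1) v
    · rw [sum_range_succ, Nat.sub_self, Nat.choose_zero_succ, mul_zero, add_zero]
      have h1 : ∀ j ∈ range (n + 1), j.choose v * (n + 1 - j).choose (w + 1) =
          j.choose v * (n - j).choose w + j.choose v * (n - j).choose (w + 1) := by
        intro j hj
        have hj' : j ≤ n := by
          have := mem_range.mp hj
          omega
        rw [Nat.succ_sub hj', Nat.choose_succ_succ, mul_add]
      rw [sum_congr rfl h1, sum_add_distrib, ih w, ih (w + 1)]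
      have : v + (w + 1) + 1 = (v + w + 1) + 1 := by ring
      rw [this, Nat.choose_succ_succ (n + 1) (v + w + 1)]

/-- the joint distribution of the numbers of survivors in a set and in its complement -/
theorem marg2 (S : Finset (Fin n)) (x y : ℕ) {r : ℝ} (h0 : 0 ≤ r) (h1 : r ≤ 1) :
    ∑ D : Finset (Fin n), (if #(S \ D) = x ∧ #(Sᶜ \ D) = y then wt r D else 0) ≤
      bb x #S r * bb y (n - #S) r := by
  classical
  have h1r : 0 ≤ 1 - r := by linarith
  have hcomp : #Sᶜ = n - #S := by rw [card_compl, Fintype.card_fin]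
  have hSn : #S ≤ n := by
    have := card_le_univ S
    rwa [Fintype.card_fin] at this
  rw [← sum_filter]
  have hwt : ∀ D ∈ (univ : Finset (Finset (Fin n))).filter
      (fun D => #(S \ D) = x ∧ #(Sᶜ \ D) = y),
      wt r D = r ^ (#S - x + (n - #S - y)) * (1 - r) ^ (x + y) := by
    intro D hD
    rw [mem_filter] at hD
    obtain ⟨-, hx, hy⟩ := hD
    have e1 : #Dᶜ = x + y := by
      rw [← hx, ← hy, ← card_union_of_disjoint]
      · congr 1
        ext l
        simp only [mem_compl, mem_union, mem_sdiff]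
        tauto
      · rw [disjoint_left]
        intro l hl hl'
        rw [mem_sdiff] at hl hl'
        exact (mem_compl.mp hl'.1) hl.1
    have e2 : #D + #Dᶜ = n := by
      have := card_add_card_compl D
      rwa [Fintype.card_fin] at this
    have e3 : x ≤ #S := by rw [← hx]; exact card_le_card sdiff_subset
    have e4 : y ≤ n - #S := by rw [← hy, ← hcomp]; exact card_le_card sdiff_subset
    unfold wt
    rw [show #D = #S - x + (n - #S - y) by omega, show n - (#S - x + (n - #S - y)) = x + y by omega]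
  rw [sum_congr rfl hwt, sum_const, nsmul_eq_mul]
  have hcard : #((univ : Finset (Finset (Fin n))).filter
      (fun D => #(S \ D) = x ∧ #(Sᶜ \ D) = y)) ≤ (#S).choose x * (n - #S).choose y := by
    rw [← hcomp, ← card_powersetCard x S, ← card_powersetCard y Sᶜ, ← card_product]
    apply card_le_card_of_injOn (fun D => (S \ D, Sᶜ \ D))
    · intro D hD
      simp only [coe_filter, mem_univ, true_and, Set.mem_ofPred_eq] at hD
      simp only [coe_product, Set.mem_prod, mem_coe, mem_powersetCard]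
      exact ⟨⟨sdiff_subset, hD.1⟩, ⟨sdiff_subset, hD.2⟩⟩
    · intro D _ D' _ hDD
      rw [Prod.mk.injEq] at hDD
      ext l
      have a1 := Finset.ext_iff.mp hDD.1 l
      have a2 := Finset.ext_iff.mp hDD.2 l
      simp only [mem_sdiff, mem_compl] at a1 a2
      tauto
  have hcard' : ((#((univ : Finset (Finset (Fin n))).filter
      (fun D => #(S \ D) = x ∧ #(Sᶜ \ D) = y)) : ℕ) : ℝ) ≤
      ((#S).choose x : ℝ) * ((n - #S).choose y : ℝ) := by exact_mod_cast hcard
  calc _ ≤ ((#S).choose x : ℝ) * ((n - #S).choose y : ℝ) *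
        (r ^ (#S - x + (n - #S - y)) * (1 - r) ^ (x + y)) := by gcongr
    _ = bb x #S r * bb y (n - #S) r := by
      unfold bb
      rw [pow_add, pow_add]
      ring

/-- the weight of a level -/
noncomputable def mw (n : ℕ) (κ : ℕ → ℕ) (β : ℕ) (r : ℝ) (j : ℕ) : ℝ :=
  ∑ x ∈ range (n + 1), ∑ y ∈ range (n + 1),
    if x + β = κ (x + y) then bb x j r * bb y (n - j) r else 0

theorem mw_nonneg (κ : ℕ → ℕ) (β : ℕ) {r : ℝ} (h0 : 0 ≤ r) (h1 : r ≤ 1) (j : ℕ) :
    0 ≤ mw n κ β r j := by
  unfold mw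
  apply sum_nonneg
  intro x _
  apply sum_nonneg
  intro y _
  split_ifs
  · exact mul_nonneg (bb_nonneg _ _ h0 h1) (bb_nonneg _ _ h0 h1)
  · exact le_rfl

/-- the expected contribution of a pair -/
theorem sum_le_mw (S : Finset (Fin n)) (κ : ℕ → ℕ) (β : ℕ) {r : ℝ} (h0 : 0 ≤ r) (h1 : r ≤ 1) :
    ∑ D : Finset (Fin n), (if #(S \ D) + β = κ #Dᶜ then wt r D else 0) ≤ mw n κ β r #S := by
  classical
  have hcl : ∀ D : Finset (Fin n), #(S \ D) + #(Sᶜ \ D) = #Dᶜ := by
    intro D
    rw [← card_union_of_disjoint]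
    · congr 1
      ext l
      simp only [mem_compl, mem_union, mem_sdiff]
      tauto
    · rw [disjoint_left]
      intro l hl hl'
      rw [mem_sdiff] at hl hl'
      exact (mem_compl.mp hl'.1) hl.1
  have hlt : ∀ D : Finset (Fin n), #D < n + 1 := by
    intro D
    have := card_le_univ D
    rw [Fintype.card_fin] at this
    omega
  have e : ∀ D : Finset (Fin n), (if #(S \ D) + β = κ #Dᶜ then wt r D else 0) =
      ∑ x ∈ range (n + 1), ∑ y ∈ range (n + 1), (if x + β = κ (x + y) then
        (if #(S \ D) = x ∧ #(Sᶜ \ D) = y then wt r D else 0) else 0) := by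
    intro D
    rw [sum_eq_single_of_mem #(S \ D) (mem_range.mpr (hlt _)), sum_eq_single_of_mem #(Sᶜ \ D)
      (mem_range.mpr (hlt _))]
    · rw [hcl]
      simp
    · intro y _ hy
      rw [if_neg (c := (#(S \ D) = #(S \ D) ∧ #(Sᶜ \ D) = y)) (by tauto)]
      simp
    · intro x _ hx
      apply sum_eq_zero
      intro y _
      rw [if_neg (c := (#(S \ D) = x ∧ #(Sᶜ \ D) = y)) (by tauto)]
      simp
  rw [sum_congr rfl (fun D _ => e D), sum_comm]
  unfold mw
  apply sum_le_sum
  intro x _
  rw [sum_comm]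
  apply sum_le_sum
  intro y _
  split_ifs with hxy
  · exact marg2 S x y h0 h1
  · simp

/-- the sum of the weights -/
theorem sum_mw (κ : ℕ → ℕ) (β : ℕ) {r : ℝ} (h0 : 0 ≤ r) (h1 : r ≤ 1 / 2) :
    ∑ j ∈ range (n + 1), mw n κ β r j ≤ 2 := by
  classical
  have h1r : 0 < 1 - r := by linarith
  -- the sum over the levels
  have key : ∀ x y : ℕ, ∑ j ∈ range (n + 1), bb x j r * bb y (n - j) r ≤
      ((n + 1).choose (x + y + 1) : ℝ) * ((1 - r) ^ (x + y) * r ^ (n - (x + y))) := by
    intro x y
    rw [← sum_choose]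
    push_cast
    rw [sum_mul]
    apply sum_le_sum
    intro j hj
    have hj' : j ≤ n := by
      have := mem_range.mp hj
      omega
    unfold bb
    rcases lt_or_ge j x with hx | hx
    · rw [Nat.choose_eq_zero_of_lt hx]
      simp
    rcases lt_or_ge (n - j) y with hy | hy
    · rw [Nat.choose_eq_zero_of_lt hy]
      simp
    apply le_of_eq
    have : n - (x + y) = (j - x) + (n - j - y) := by omega
    rw [this, pow_add, pow_add]
    ring
  have e1 : ∑ j ∈ range (n + 1), mw n κ β r j =
      ∑ x ∈ range (n + 1), ∑ y ∈ range (n + 1), if x + β = κ (x + y) then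
        ∑ j ∈ range (n + 1), bb x j r * bb y (n - j) r else 0 := by
    unfold mw
    rw [sum_comm]
    apply sum_congr rfl
    intro x _
    rw [sum_comm]
    apply sum_congr rfl
    intro y _
    split_ifs <;> simp
  rw [e1]
  set g : ℕ → ℝ := fun m => ((n + 1).choose (m + 1) : ℝ) * ((1 - r) ^ m * r ^ (n - m)) with hg
  have hg0 : ∀ m, 0 ≤ g m := fun m => by
    rw [hg]
    positivity
  have hgz : ∀ m, n < m → g m = 0 := by
    intro m hm
    rw [hg]
    simp only
    rw [Nat.choose_eq_zero_of_lt (by omega)]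
    simp
  have e2 : ∑ x ∈ range (n + 1), ∑ y ∈ range (n + 1), (if x + β = κ (x + y) then
        ∑ j ∈ range (n + 1), bb x j r * bb y (n - j) r else 0) ≤
      ∑ p ∈ (range (n + 1) ×ˢ range (n + 1)).filter (fun p => p.1 + β = κ (p.1 + p.2)),
        g (p.1 + p.2) := by
    rw [sum_filter, sum_product]
    apply sum_le_sum
    intro x _
    apply sum_le_sum
    intro y _
    simp only
    split_ifs
    · exact key x y
    · exact le_rfl
  refine e2.trans ?_
  have e3 : ∑ p ∈ (range (n + 1) ×ˢ range (n + 1)).filter (fun p => p.1 + β = κ (p.1 + p.2)),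
      g (p.1 + p.2) ≤ ∑ m ∈ range (2 * n + 1), g m := by
    rw [← sum_image (f := g) (g := fun p : ℕ × ℕ => p.1 + p.2)
      (s := (range (n + 1) ×ˢ range (n + 1)).filter (fun p => p.1 + β = κ (p.1 + p.2)))]
    · apply sum_le_sum_of_subset_of_nonneg
      · intro m hm
        rw [mem_image] at hm
        obtain ⟨p, hp, rfl⟩ := hm
        rw [mem_filter, mem_product, mem_range, mem_range] at hp
        rw [mem_range]
        omega
      · intro m _ _
        exact hg0 m
    · intro p hp q hq hpq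
      simp only [coe_filter, Set.mem_ofPred_eq] at hp hq
      simp only at hpq
      have h5 := hp.2
      have h6 := hq.2
      rw [hpq] at h5
      ext <;> omega
  refine e3.trans ?_
  have e4 : ∑ m ∈ range (2 * n + 1), g m = ∑ m ∈ range (n + 1), g m := by
    symm
    apply sum_subset
    · intro m hm
      rw [mem_range] at hm ⊢
      omega
    · intro m _ hm
      rw [mem_range] at hm
      exact hgz m (by omega)
  rw [e4]
  have e5 : (1 - r) * ∑ m ∈ range (n + 1), g m ≤ 1 := by
    have hb : ((1 - r) + r) ^ (n + 1) = ∑ m ∈ range (n + 1 + 1),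
        (1 - r) ^ m * r ^ (n + 1 - m) * ((n + 1).choose m : ℝ) := add_pow _ _ _
    rw [sub_add_cancel, one_pow, sum_range_succ'] at hb
    have : (1 - r) * ∑ m ∈ range (n + 1), g m = ∑ m ∈ range (n + 1),
        (1 - r) ^ (m + 1) * r ^ (n + 1 - (m + 1)) * ((n + 1).choose (m + 1) : ℝ) := by
      rw [mul_sum]
      apply sum_congr rfl
      intro m _
      rw [hg]
      simp only
      rw [Nat.add_sub_add_right, pow_succ]
      ring
    rw [this]
    have : 0 ≤ (1 - r) ^ 0 * r ^ (n + 1 - 0) * ((n + 1).choose 0 : ℝ) := by positivity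
    linarith
  have hs0 : 0 ≤ ∑ m ∈ range (n + 1), g m := sum_nonneg fun m _ => hg0 m
  nlinarith

/-- a set of numbers of small diameter -/
lemma card_le_of_close {X : Finset ℕ} {s : ℕ} (h : ∀ x ∈ X, ∀ y ∈ X, x ≤ y → y < x + s) :
    #X ≤ s := by
  rcases X.eq_empty_or_nonempty with rfl | hX
  · simp
  have h1 : X ⊆ Ico (X.min' hX) (X.min' hX + s) := by
    intro y hy
    rw [mem_Ico]
    exact ⟨X.min'_le y hy, h _ (X.min'_mem hX) y hy (X.min'_le y hy)⟩
  have := card_le_card h1
  rw [Nat.card_Ico] at this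
  omega

/-- the weights are small -/
theorem mw_le {κ : ℕ → ℕ} {s : ℕ} (hκ : Stp κ s) (β : ℕ) {r : ℝ} (h0 : 0 < r) (h1 : r ≤ 1 / 2)
    (hn : 0 < n) {j : ℕ} (hj : j ≤ n) : mw n κ β r j ≤ s * (6 / Real.sqrt (r * n)) := by
  classical
  have hn0 : (0 : ℝ) < n := by exact_mod_cast hn
  have hrn : 0 < Real.sqrt (r * n) := Real.sqrt_pos.mpr (by positivity)
  -- a single binomial probability
  have hone : ∀ (x i : ℕ), n ≤ 2 * i → bb x i r ≤ 6 / Real.sqrt (r * n) := by
    intro x i hi
    have hi1 : 1 ≤ i := by omega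
    have hi0 : (0 : ℝ) < i := by exact_mod_cast hi1
    refine (bb_sup h0 h1 hi1).trans ?_
    have hs' : 0 < Real.sqrt (r * i) := Real.sqrt_pos.mpr (by positivity)
    rw [div_le_div_iff₀ hs' hrn]
    have h2 : (n : ℝ) ≤ 2 * i := by exact_mod_cast hi
    have h3 : Real.sqrt (r * n) ≤ 3 / 2 * Real.sqrt (r * i) := by
      calc Real.sqrt (r * n) ≤ Real.sqrt ((3 / 2) ^ 2 * (r * i)) := by
            apply Real.sqrt_le_sqrt
            nlinarith
        _ = 3 / 2 * Real.sqrt (r * i) := by
            rw [Real.sqrt_mul (by norm_num), Real.sqrt_sq (by norm_num)]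
    linarith
  -- the sum of all probabilities
  have hall : ∀ i ≤ n, ∑ x ∈ range (n + 1), bb x i r ≤ 1 := by
    intro i hi
    have e1 : ∑ x ∈ range (n + 1), bb x i r = ∑ x ∈ range (i + 1), bb x i r := by
      symm
      apply sum_subset
      · intro m hm
        rw [mem_range] at hm ⊢
        omega
      · intro m _ hm
        rw [mem_range] at hm
        exact bb_zero (by omega) r
    rw [e1]
    have hb : ((1 - r) + r) ^ i = ∑ m ∈ range (i + 1),
        (1 - r) ^ m * r ^ (i - m) * (i.choose m : ℝ) := add_pow _ _ _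
    rw [sub_add_cancel, one_pow] at hb
    rw [hb]
    apply le_of_eq
    apply sum_congr rfl
    intro m _
    unfold bb
    ring
  have hnn : ∀ x i, 0 ≤ bb x i r := fun x i => bb_nonneg x i h0.le (by linarith)
  have hM0 : 0 ≤ 6 / Real.sqrt (r * n) := by positivity
  rcases Nat.lt_or_ge (2 * j) n with hj2 | hj2
  · -- many lines above
    unfold mw
    calc _ ≤ ∑ x ∈ range (n + 1), bb x j r * (s * (6 / Real.sqrt (r * n))) := by
          apply sum_le_sum
          intro x _
          rw [← sum_filter, ← mul_sum]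
          apply mul_le_mul_of_nonneg_left _ (hnn x j)
          calc ∑ y ∈ (range (n + 1)).filter (fun y => x + β = κ (x + y)), bb y (n - j) r ≤
                ∑ _y ∈ (range (n + 1)).filter (fun y => x + β = κ (x + y)),
                  6 / Real.sqrt (r * n) :=
                sum_le_sum fun y _ => hone y (n - j) (by omega)
            _ = #((range (n + 1)).filter (fun y => x + β = κ (x + y))) *
                  (6 / Real.sqrt (r * n)) := by rw [sum_const, nsmul_eq_mul]
            _ ≤ s * (6 / Real.sqrt (r * n)) := by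
                apply mul_le_mul_of_nonneg_right _ hM0
                have : #((range (n + 1)).filter (fun y => x + β = κ (x + y))) ≤ s := by
                  apply card_le_of_close
                  intro y1 hy1 y2 hy2 h12
                  rw [mem_filter] at hy1 hy2
                  by_contra hcon
                  have e1 := hκ.up (x + y1)
                  have e2 := hκ.mono (show x + y1 + s ≤ x + y2 by omega)
                  have e3 := hy1.2
                  have e4 := hy2.2
                  omega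
                exact_mod_cast this
      _ = (∑ x ∈ range (n + 1), bb x j r) * (s * (6 / Real.sqrt (r * n))) := by rw [sum_mul]
      _ ≤ 1 * (s * (6 / Real.sqrt (r * n))) :=
          mul_le_mul_of_nonneg_right (hall j hj) (by positivity)
      _ = _ := one_mul _
  · -- many lines below
    unfold mw
    rw [sum_comm]
    calc _ ≤ ∑ y ∈ range (n + 1), bb y (n - j) r * (s * (6 / Real.sqrt (r * n))) := by
          apply sum_le_sum
          intro y _
          rw [← sum_filter]
          simp only [mul_comm (bb _ j r) (bb y (n - j) r)]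
          rw [← mul_sum]
          apply mul_le_mul_of_nonneg_left _ (hnn y _)
          calc ∑ x ∈ (range (n + 1)).filter (fun x => x + β = κ (x + y)), bb x j r ≤
                ∑ _x ∈ (range (n + 1)).filter (fun x => x + β = κ (x + y)),
                  6 / Real.sqrt (r * n) :=
                sum_le_sum fun x _ => hone x j hj2
            _ = #((range (n + 1)).filter (fun x => x + β = κ (x + y))) *
                  (6 / Real.sqrt (r * n)) := by rw [sum_const, nsmul_eq_mul]
            _ ≤ s * (6 / Real.sqrt (r * n)) := by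
                apply mul_le_mul_of_nonneg_right _ hM0
                have : #((range (n + 1)).filter (fun x => x + β = κ (x + y))) ≤ s := by
                  apply card_le_of_close
                  intro x1 hx1 x2 hx2 h12
                  rw [mem_filter] at hx1 hx2
                  by_contra hcon
                  have e1 := hκ.dn (x1 + y)
                  have e2 := hκ.lip (x1 + y + s) (x2 + y) (by omega)
                  have e3 := hx1.2
                  have e4 := hx2.2
                  omega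
                exact_mod_cast this
      _ = (∑ y ∈ range (n + 1), bb y (n - j) r) * (s * (6 / Real.sqrt (r * n))) := by rw [sum_mul]
      _ ≤ 1 * (s * (6 / Real.sqrt (r * n))) :=
          mul_le_mul_of_nonneg_right (hall (n - j) (Nat.sub_le _ _)) (by positivity)
      _ = _ := one_mul _

/-- the expected number of pairs at the moving level -/
theorem exp_mov {P : Fin n → ℝ × ℝ} (hP : GP P) {κ : ℕ → ℕ} {s : ℕ} (hs0 : 0 < s) (hκ : Stp κ s)
    (β : ℕ) {r : ℝ} (h0 : 0 < r) (h1 : r ≤ 1 / 2) (hn : 0 < n) :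
    ∑ D : Finset (Fin n), wt r D *
      (#((T P).filter (fun q => #(lowSet P q \ D) + β = κ #Dᶜ)) : ℝ) ≤
      207 * (s : ℝ) ^ (1 / 3 : ℝ) * n * ((n : ℝ) / r) ^ (1 / 6 : ℝ) := by
  classical
  have hn0 : (0 : ℝ) < n := by exact_mod_cast hn
  have hn1 : (1 : ℝ) ≤ n := by exact_mod_cast hn
  have hsr : (0 : ℝ) < s := by exact_mod_cast hs0
  have hrn0 : 0 < r * n := by positivity
  have hrn : 0 < Real.sqrt (r * n) := Real.sqrt_pos.mpr hrn0
  have e1 : ∀ D : Finset (Fin n), wt r D *
      (#((T P).filter (fun q => #(lowSet P q \ D) + β = κ #Dᶜ)) : ℝ) =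
      ∑ q ∈ T P, (if #(lowSet P q \ D) + β = κ #Dᶜ then wt r D else 0) := by
    intro D
    rw [← sum_filter, sum_const, nsmul_eq_mul, mul_comm]
  rw [sum_congr rfl (fun D _ => e1 D), sum_comm]
  have e2 : ∑ q ∈ T P, ∑ D : Finset (Fin n),
      (if #(lowSet P q \ D) + β = κ #Dᶜ then wt r D else 0) ≤
      ∑ q ∈ EW P (range (n + 1)), mw n κ β r (lev P q) := by
    rw [EW_all P le_rfl]
    apply sum_le_sum
    intro q _
    rw [lev_eq]
    exact sum_le_mw (lowSet P q) κ β h0.le (by linarith)
  refine e2.trans ?_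
  have e3 := sum_below hP (w := mw n κ β r) (M := s * (6 / Real.sqrt (r * n))) (J := n + 1)
    (by omega) (by positivity) (fun j _ => mw_nonneg κ β h0.le (by linarith) j)
    (fun j hj => mw_le hκ β h0 h1 hn (by omega)) (sum_mw κ β h0.le h1)
  refine e3.trans ?_
  have e4 : (((n + 1 : ℕ) : ℝ)) ^ (1 / 3 : ℝ) ≤ (2 : ℝ) ^ (1 / 3 : ℝ) * (n : ℝ) ^ (1 / 3 : ℝ) := by
    rw [← Real.mul_rpow (by norm_num) hn0.le]
    apply Real.rpow_le_rpow (by positivity) _ (by norm_num)
    push_cast
    linarith
  have e5 : ((s : ℝ) * (6 / Real.sqrt (r * n))) ^ (1 / 3 : ℝ) =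
      (s : ℝ) ^ (1 / 3 : ℝ) * (6 ^ (1 / 3 : ℝ) * (r * n) ^ (-(1 / 6) : ℝ)) := by
    rw [Real.mul_rpow hsr.le (by positivity), Real.sqrt_eq_rpow, Real.div_rpow (by norm_num)
      (by positivity), ← Real.rpow_mul hrn0.le, Real.rpow_neg hrn0.le,
      show (1 / 2 : ℝ) * (1 / 3) = 1 / 6 by norm_num, div_eq_mul_inv (6 ^ (1 / 3 : ℝ) : ℝ)]
  have e6 : (n : ℝ) ^ (1 / 3 : ℝ) * (r * n) ^ (-(1 / 6) : ℝ) = ((n : ℝ) / r) ^ (1 / 6 : ℝ) := by
    rw [Real.mul_rpow h0.le hn0.le, Real.div_rpow hn0.le h0.le, Real.rpow_neg h0.le]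
    have : (n : ℝ) ^ (1 / 3 : ℝ) * (n : ℝ) ^ (-(1 / 6) : ℝ) = (n : ℝ) ^ (1 / 6 : ℝ) := by
      rw [← Real.rpow_add hn0]
      norm_num
    rw [← this]
    ring
  have e7 : (2 : ℝ) ^ (1 / 3 : ℝ) * 6 ^ (1 / 3 : ℝ) ≤ 23 / 10 := by
    rw [← Real.mul_rpow (by norm_num) (by norm_num)]
    have : ((2 * 6 : ℝ) ^ (1 / 3 : ℝ)) ^ 3 ≤ (23 / 10 : ℝ) ^ 3 := by
      rw [← Real.rpow_natCast, ← Real.rpow_mul (by norm_num)]
      norm_num
    exact le_of_pow_le_pow_left₀ (by norm_num) (by norm_num) this
  calc 90 * (n : ℝ) * (((n + 1 : ℕ) : ℝ) ^ (1 / 3 : ℝ) *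
        ((s : ℝ) * (6 / Real.sqrt (r * n))) ^ (1 / 3 : ℝ)) ≤
        90 * (n : ℝ) * (((2 : ℝ) ^ (1 / 3 : ℝ) * (n : ℝ) ^ (1 / 3 : ℝ)) *
          ((s : ℝ) ^ (1 / 3 : ℝ) * (6 ^ (1 / 3 : ℝ) * (r * n) ^ (-(1 / 6) : ℝ)))) := by
        rw [e5]
        gcongr
    _ = 90 * ((2 : ℝ) ^ (1 / 3 : ℝ) * 6 ^ (1 / 3 : ℝ)) * (s : ℝ) ^ (1 / 3 : ℝ) * n *
          ((n : ℝ) ^ (1 / 3 : ℝ) * (r * n) ^ (-(1 / 6) : ℝ)) := by ring
    _ ≤ 90 * (23 / 10) * (s : ℝ) ^ (1 / 3 : ℝ) * n *
          ((n : ℝ) ^ (1 / 3 : ℝ) * (r * n) ^ (-(1 / 6) : ℝ)) := by gcongr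
    _ = _ := by rw [e6]; ring

/-- **moving levels after random deletions** -/
theorem random_moving {a B : Fin n → ℝ} (hS : Simple a B) {κ : ℕ → ℕ} {s : ℕ} (hs0 : 0 < s)
    (hκ : Stp κ s) {r : ℝ} (hr0 : 0 < r) (hr : r ≤ 1 / 2) (hn : 0 < n) :
    (∀ D : Finset (Fin n), κ #Dᶜ < #Dᶜ → psi (sub a Dᶜ) (sub B Dᶜ) (κ #Dᶜ) ≠ ⊤) ∧
    ∑ D : Finset (Fin n) with κ #Dᶜ < #Dᶜ,
      r ^ #D * (1 - r) ^ (n - #D) * ((psi (sub a Dᶜ) (sub B Dᶜ) (κ #Dᶜ)).toNat : ℝ) ≤
      414 * (s : ℝ) ^ (1 / 3 : ℝ) * n * ((n : ℝ) / r) ^ (1 / 6 : ℝ) := by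
  classical
  obtain ⟨P, hGP, hP⟩ := exists_GP hS
  refine ⟨fun D hk => (toNat_le (psi_cnt hS hP D hk)).1, ?_⟩
  have hw0 : ∀ D : Finset (Fin n), 0 ≤ wt r D := wt_nonneg hr0.le (by linarith)
  have h1 : ∑ D : Finset (Fin n) with κ #Dᶜ < #Dᶜ,
      r ^ #D * (1 - r) ^ (n - #D) * ((psi (sub a Dᶜ) (sub B Dᶜ) (κ #Dᶜ)).toNat : ℝ) ≤
      ∑ D : Finset (Fin n), wt r D *
        ((#((T P).filter (fun q => #(lowSet P q \ D) + 0 = κ #Dᶜ)) : ℝ) +
          (#((T P).filter (fun q => #(lowSet P q \ D) + 1 = κ #Dᶜ)) : ℝ)) := by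
    calc _ ≤ ∑ D : Finset (Fin n) with κ #Dᶜ < #Dᶜ, wt r D *
        ((#((T P).filter (fun q => #(lowSet P q \ D) + 0 = κ #Dᶜ)) : ℝ) +
          (#((T P).filter (fun q => #(lowSet P q \ D) + 1 = κ #Dᶜ)) : ℝ)) := by
          apply sum_le_sum
          intro D hD
          apply mul_le_mul_of_nonneg_left _ (hw0 D)
          have h2 := (toNat_le (psi_cnt hS hP D (mem_filter.mp hD).2)).2
          have h3 : (if κ #Dᶜ = 0 then 0 else cnt P (κ #Dᶜ - 1) D) ≤
              #((T P).filter (fun q => #(lowSet P q \ D) + 1 = κ #Dᶜ)) := by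
            split_ifs with hz
            · exact Nat.zero_le _
            · unfold cnt
              apply card_le_card
              intro q hq
              rw [mem_filter] at hq ⊢
              exact ⟨hq.1, by omega⟩
          have h4 : cnt P (κ #Dᶜ) D =
              #((T P).filter (fun q => #(lowSet P q \ D) + 0 = κ #Dᶜ)) := by
            unfold cnt
            simp
          rw [h4] at h2
          exact_mod_cast h2.trans (Nat.add_le_add_left h3 _)
      _ ≤ _ := sum_le_sum_of_subset_of_nonneg (filter_subset _ _)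
          (fun D _ _ => mul_nonneg (hw0 D) (by positivity))
  refine h1.trans ?_
  simp only [mul_add, sum_add_distrib]
  have a1 := exp_mov hGP hs0 hκ 0 hr0 hr hn
  have a2 := exp_mov hGP hs0 hκ 1 hr0 hr hn
  linarith

end Pool.Agent.Q236.HB
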