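import Mathlib
import Pool.Agent.H189R2.Lev.Core
import Pool.Agent.H189R2.Lev.Lines

/-!
# Three large families of lines no point of the plane is between all of which
-/

set_option autoImplicit false

namespace Pool.Agent.Q236.HB

open Finset
open Pool.Agent.H189R2.Lev (ht cr ht_cr exists_stat)

/-- lower and upper quartiles -/
lemma quart {ι : Type*} (S : Finset ι) (f : ι → ℝ) (hS : 0 < #S) :
    ∃ x₁ x₂ : ℝ, x₁ ≤ x₂ ∧ 4 * #{i ∈ S | f i < x₁} < #S ∧ #S ≤ 4 * #{i ∈ S | f i ≤ x₁} ∧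
      4 * #{i ∈ S | x₂ < f i} < #S ∧ #S ≤ 4 * #{i ∈ S | x₂ ≤ f i} := by
  classical
  obtain ⟨x₂, h1, h2⟩ := exists_stat S f (k := (#S - 1) / 4) (by omega)
  obtain ⟨y, h3, h4⟩ := exists_stat S (fun i => - f i) (k := (#S - 1) / 4) (by omega)
  have e3 : {i ∈ S | y < - f i} = {i ∈ S | f i < -y} := by
    ext i; simp only [mem_filter]; constructor <;> rintro ⟨a, b⟩ <;> exact ⟨a, by linarith⟩
  have e4 : {i ∈ S | y ≤ - f i} = {i ∈ S | f i ≤ -y} := by
    ext i; simp only [mem_filter]; constructor <;> rintro ⟨a, b⟩ <;> exact ⟨a, by linarith⟩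
  rw [e3] at h3
  rw [e4] at h4
  refine ⟨-y, x₂, ?_, by omega, by omega, by omega, by omega⟩
  by_contra hcon
  push Not at hcon
  have h5 : S ⊆ {i ∈ S | f i < -y} ∪ {i ∈ S | x₂ < f i} := by
    intro i hi
    rw [mem_union, mem_filter, mem_filter]
    by_cases h : f i < -y
    · exact Or.inl ⟨hi, h⟩
    · exact Or.inr ⟨hi, by linarith⟩
  have h6 := (card_le_card h5).trans (card_union_le _ _)
  omega

/-- two families with balanced comparisons have a common splitting value -/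
lemma common {ι κ : Type*} (S : Finset ι) (R : Finset κ) (f : ι → ℝ) (g : κ → ℝ) (hS : 0 < #S)
    (hR : 0 < #R) (h1 : #S * #R ≤ 2 * #{q ∈ S ×ˢ R | f q.1 ≤ g q.2})
    (h2 : #S * #R ≤ 2 * #{q ∈ S ×ˢ R | g q.2 ≤ f q.1}) :
    ∃ y : ℝ, #S ≤ 4 * #{i ∈ S | f i ≤ y} ∧ #S ≤ 4 * #{i ∈ S | y ≤ f i} ∧
      #R ≤ 4 * #{i ∈ R | g i ≤ y} ∧ #R ≤ 4 * #{i ∈ R | y ≤ g i} := by
  classical
  obtain ⟨x₁, x₂, hx, a1, a2, a3, a4⟩ := quart S f hS
  obtain ⟨y₁, y₂, hy, b1, b2, b3, b4⟩ := quart R g hR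
  have c1 : y₁ ≤ x₂ := by
    by_contra hcon
    push Not at hcon
    have hsub : {q ∈ S ×ˢ R | g q.2 ≤ f q.1} ⊆
        {i ∈ S | x₂ < f i} ×ˢ R ∪ S ×ˢ {i ∈ R | g i < y₁} := by
      rintro ⟨i, j⟩ hq
      simp only [mem_union, mem_product, mem_filter] at hq ⊢
      by_cases h : x₂ < f i
      · exact Or.inl ⟨⟨hq.1.1, h⟩, hq.1.2⟩
      · exact Or.inr ⟨hq.1.1, hq.1.2, by linarith [hq.2]⟩
    have h3 := (card_le_card hsub).trans (card_union_le _ _)
    rw [card_product, card_product] at h3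
    have h4 : 4 * #{i ∈ S | x₂ < f i} * #R < #S * #R := Nat.mul_lt_mul_of_pos_right a3 hR
    have h5 : 4 * #{i ∈ R | g i < y₁} * #S < #R * #S := Nat.mul_lt_mul_of_pos_right b1 hS
    nlinarith
  have c2 : x₁ ≤ y₂ := by
    by_contra hcon
    push Not at hcon
    have hsub : {q ∈ S ×ˢ R | f q.1 ≤ g q.2} ⊆
        {i ∈ S | f i < x₁} ×ˢ R ∪ S ×ˢ {i ∈ R | y₂ < g i} := by
      rintro ⟨i, j⟩ hq
      simp only [mem_union, mem_product, mem_filter] at hq ⊢
      by_cases h : f i < x₁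
      · exact Or.inl ⟨⟨hq.1.1, h⟩, hq.1.2⟩
      · exact Or.inr ⟨hq.1.1, hq.1.2, by linarith [hq.2]⟩
    have h3 := (card_le_card hsub).trans (card_union_le _ _)
    rw [card_product, card_product] at h3
    have h4 : 4 * #{i ∈ S | f i < x₁} * #R < #S * #R := Nat.mul_lt_mul_of_pos_right a1 hR
    have h5 : 4 * #{i ∈ R | y₂ < g i} * #S < #R * #S := Nat.mul_lt_mul_of_pos_right b3 hS
    nlinarith
  refine ⟨max x₁ y₁, ?_, ?_, ?_, ?_⟩
  · refine a2.trans (Nat.mul_le_mul_left _ (card_le_card ?_))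
    exact monotone_filter_right _ fun i _ hi => le_trans hi (le_max_left _ _)
  · refine a4.trans (Nat.mul_le_mul_left _ (card_le_card ?_))
    exact monotone_filter_right _ fun i _ hi => le_trans (max_le hx c1) hi
  · refine b2.trans (Nat.mul_le_mul_left _ (card_le_card ?_))
    exact monotone_filter_right _ fun i _ hi => le_trans hi (le_max_right _ _)
  · refine b4.trans (Nat.mul_le_mul_left _ (card_le_card ?_))
    exact monotone_filter_right _ fun i _ hi => le_trans (max_le c2 hy) hi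

variable {n : ℕ} {a B : Fin n → ℝ}

/-- a common halving point of two families of lines with separated slopes -/
lemma halfpoint (S R : Finset (Fin n)) (hSR : ∀ i ∈ S, ∀ j ∈ R, a i < a j) (hS : 0 < #S)
    (hR : 0 < #R) : ∃ x y : ℝ, #S ≤ 4 * #{i ∈ S | ht a B i x ≤ y} ∧
      #S ≤ 4 * #{i ∈ S | y ≤ ht a B i x} ∧
      #R ≤ 4 * #{i ∈ R | ht a B i x ≤ y} ∧ #R ≤ 4 * #{i ∈ R | y ≤ ht a B i x} := by
  classical
  have hN : 0 < #(S ×ˢ R) := by rw [card_product]; positivity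
  obtain ⟨x, h1, h2⟩ := exists_stat (S ×ˢ R) (fun q => cr a B q.1 q.2)
    (k := (#(S ×ˢ R) - 1) / 2) (by omega)
  have hcr : ∀ i ∈ S, ∀ j ∈ R, ht a B j x - ht a B i x = (a j - a i) * (x - cr a B i j) := by
    intro i hi j hj
    have h := hSR i hi j hj
    have h0 := ht_cr (a := a) (B := B) h.ne
    unfold ht at h0 ⊢
    linear_combination h0
  have h3 : #(S ×ˢ R) ≤ 2 * #{q ∈ S ×ˢ R | ht a B q.2 x ≤ ht a B q.1 x} := by
    have e : {q ∈ S ×ˢ R | x ≤ cr a B q.1 q.2} ⊆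
        {q ∈ S ×ˢ R | ht a B q.2 x ≤ ht a B q.1 x} := by
      intro q hq
      rw [mem_filter] at hq ⊢
      have hq' := mem_product.mp hq.1
      have h4 := hcr q.1 hq'.1 q.2 hq'.2
      have h5 := hSR q.1 hq'.1 q.2 hq'.2
      refine ⟨hq.1, ?_⟩
      nlinarith [hq.2]
    have := card_le_card e
    omega
  have h4 : #(S ×ˢ R) ≤ 2 * #{q ∈ S ×ˢ R | ht a B q.1 x ≤ ht a B q.2 x} := by
    have e : {q ∈ S ×ˢ R | ¬ x < cr a B q.1 q.2} ⊆
        {q ∈ S ×ˢ R | ht a B q.1 x ≤ ht a B q.2 x} := by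
      intro q hq
      rw [mem_filter] at hq ⊢
      have hq' := mem_product.mp hq.1
      have h4 := hcr q.1 hq'.1 q.2 hq'.2
      have h5 := hSR q.1 hq'.1 q.2 hq'.2
      refine ⟨hq.1, ?_⟩
      have h6 := not_lt.mp hq.2
      nlinarith
    have h5 := card_le_card e
    have h6 := card_filter_add_card_filter_not (s := S ×ˢ R) (fun q => x < cr a B q.1 q.2)
    omega
  rw [card_product] at h3 h4
  obtain ⟨y, g1, g2, g3, g4⟩ := common S R (fun i => ht a B i x) (fun i => ht a B i x) hS hR h4 h3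
  exact ⟨x, y, g1, g2, g3, g4⟩

/-- **three separated families**: pairwise disjoint, and every point of the plane is above all the
lines of one of the families or below all of them -/
theorem exists_sep (ha : Function.Injective a)
    (hS : ∀ i j l, i ≠ j → i ≠ l → j ≠ l →
      ¬ ∃ x, ht a B i x = ht a B j x ∧ ht a B i x = ht a B l x)
    {m : ℕ} (hm : 4 ≤ m) (hmn : 3 * m ≤ n) :
    ∃ A : Fin 3 → Finset (Fin n), (∀ s t, s ≠ t → Disjoint (A s) (A t)) ∧
      (∀ s, m ≤ 4 * #(A s)) ∧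
      ∀ x y : ℝ, ∃ t, (∀ l ∈ A t, ht a B l x < y) ∨ (∀ l ∈ A t, y < ht a B l x) := by
  classical
  -- sort by slope
  set σ := Tuple.sort a with hσ
  have hmono : StrictMono (a ∘ σ) :=
    (Tuple.monotone_sort a).strictMono_of_injective (ha.comp σ.injective)
  -- the three blocks
  set Bl : ℕ → Finset (Fin n) := fun s =>
    (univ.filter fun i : Fin n => s * m ≤ (i : ℕ) ∧ (i : ℕ) < (s + 1) * m).map σ.toEmbedding
    with hBl
  have hcard : ∀ s, s < 3 → #(Bl s) = m := by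
    intro s hs
    have hsm : (s + 1) * m ≤ n := le_trans (Nat.mul_le_mul_right _ (by omega)) hmn
    rw [hBl]
    simp only [card_map]
    have : (univ.filter fun i : Fin n => s * m ≤ (i : ℕ) ∧ (i : ℕ) < (s + 1) * m).map
        Fin.valEmbedding = Finset.Ico (s * m) ((s + 1) * m) := by
      ext k
      simp only [mem_map, mem_filter, mem_univ, true_and, Fin.valEmbedding_apply, mem_Ico]
      constructor
      · rintro ⟨i, hi, rfl⟩; exact hi
      · rintro ⟨h1, h2⟩; exact ⟨⟨k, by omega⟩, ⟨h1, h2⟩, rfl⟩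
    rw [← card_map Fin.valEmbedding, this, Nat.card_Ico]
    have : (s + 1) * m = s * m + m := by ring
    omega
  have hlt : ∀ s t, s < t → ∀ i ∈ Bl s, ∀ j ∈ Bl t, a i < a j := by
    intro s t hst i hi j hj
    rw [hBl] at hi hj
    simp only [mem_map, mem_filter, mem_univ, true_and, Equiv.coe_toEmbedding] at hi hj
    obtain ⟨i', hi', rfl⟩ := hi
    obtain ⟨j', hj', rfl⟩ := hj
    have h1 : (s + 1) * m ≤ t * m := Nat.mul_le_mul_right _ (by omega)
    exact hmono (show i' < j' from by rw [Fin.lt_def]; omega)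
  obtain ⟨x₀, y₀, g1, g2, g3, g4⟩ := halfpoint (a := a) (B := B) (Bl 0) (Bl 2)
    (hlt 0 2 (by norm_num)) (by rw [hcard 0 (by norm_num)]; omega)
    (by rw [hcard 2 (by norm_num)]; omega)
  rw [hcard 0 (by norm_num)] at g1 g2
  rw [hcard 2 (by norm_num)] at g3 g4
  have hmid : m ≤ 2 + #{i ∈ Bl 1 | ht a B i x₀ < y₀} + #{i ∈ Bl 1 | y₀ < ht a B i x₀} := by
    have h1 : #{i ∈ Bl 1 | ht a B i x₀ = y₀} ≤ 2 := by
      by_contra hcon
      push Not at hcon
      obtain ⟨i, j, l, hi, hj, hl, hij, hil, hjl⟩ := Finset.two_lt_card_iff.mp hcon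
      rw [mem_filter] at hi hj hl
      exact hS i j l hij hil hjl ⟨x₀, by rw [hi.2, hj.2], by rw [hi.2, hl.2]⟩
    have h2 : Bl 1 ⊆ {i ∈ Bl 1 | ht a B i x₀ = y₀} ∪ {i ∈ Bl 1 | ht a B i x₀ < y₀} ∪
        {i ∈ Bl 1 | y₀ < ht a B i x₀} := by
      intro i hi
      simp only [mem_union, mem_filter]
      rcases lt_trichotomy (ht a B i x₀) y₀ with h | h | h
      · exact Or.inl (Or.inr ⟨hi, h⟩)
      · exact Or.inl (Or.inl ⟨hi, h⟩)
      · exact Or.inr ⟨hi, h⟩
    have h3 := card_le_card h2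
    rw [hcard 1 (by norm_num)] at h3
    have h4 := card_union_le ({i ∈ Bl 1 | ht a B i x₀ = y₀} ∪ {i ∈ Bl 1 | ht a B i x₀ < y₀})
      {i ∈ Bl 1 | y₀ < ht a B i x₀}
    have h5 := card_union_le {i ∈ Bl 1 | ht a B i x₀ = y₀} {i ∈ Bl 1 | ht a B i x₀ < y₀}
    omega
  have hdisj : ∀ s t, s < t → Disjoint (Bl s) (Bl t) := by
    intro s t hst
    rw [disjoint_left]
    intro i hi hi'
    exact lt_irrefl _ (hlt s t hst i hi i hi')
  have mv : ∀ l (x : ℝ), ht a B l x = ht a B l x₀ + a l * (x - x₀) := by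
    intro l x; unfold ht; ring
  have fin : ∀ (A₀ A₁ A₂ : Finset (Fin n)), A₀ ⊆ Bl 0 → A₁ ⊆ Bl 1 → A₂ ⊆ Bl 2 →
      m ≤ 4 * #A₀ → m ≤ 4 * #A₁ → m ≤ 4 * #A₂ →
      (∀ x y : ℝ, ((∀ l ∈ A₀, ht a B l x < y) ∨ (∀ l ∈ A₀, y < ht a B l x)) ∨
        ((∀ l ∈ A₁, ht a B l x < y) ∨ (∀ l ∈ A₁, y < ht a B l x)) ∨
        ((∀ l ∈ A₂, ht a B l x < y) ∨ (∀ l ∈ A₂, y < ht a B l x))) →
      ∃ A : Fin 3 → Finset (Fin n), (∀ s t, s ≠ t → Disjoint (A s) (A t)) ∧
      (∀ s, m ≤ 4 * #(A s)) ∧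
      ∀ x y : ℝ, ∃ t, (∀ l ∈ A t, ht a B l x < y) ∨ (∀ l ∈ A t, y < ht a B l x) := by
    intro A₀ A₁ A₂ s0 s1 s2 c0 c1 c2 h
    refine ⟨![A₀, A₁, A₂], ?_, ?_, ?_⟩
    · have d01 : Disjoint A₀ A₁ := (hdisj 0 1 (by norm_num)).mono s0 s1
      have d02 : Disjoint A₀ A₂ := (hdisj 0 2 (by norm_num)).mono s0 s2
      have d12 : Disjoint A₁ A₂ := (hdisj 1 2 (by norm_num)).mono s1 s2
      intro s t hst
      fin_cases s <;> fin_cases t
      · exact absurd rfl hst
      · exact d01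
      · exact d02
      · exact d01.symm
      · exact absurd rfl hst
      · exact d12
      · exact d02.symm
      · exact d12.symm
      · exact absurd rfl hst
    · intro s
      fin_cases s
      · exact c0
      · exact c1
      · exact c2
    · intro x y
      rcases h x y with h | h | h
      · exact ⟨0, h⟩
      · exact ⟨1, h⟩
      · exact ⟨2, h⟩
  by_cases hab : #{i ∈ Bl 1 | ht a B i x₀ < y₀} ≤ #{i ∈ Bl 1 | y₀ < ht a B i x₀}
  · -- the middle family is above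
    apply fin {i ∈ Bl 0 | ht a B i x₀ ≤ y₀} {i ∈ Bl 1 | y₀ < ht a B i x₀}
      {i ∈ Bl 2 | ht a B i x₀ ≤ y₀} (filter_subset _ _) (filter_subset _ _) (filter_subset _ _)
      g1 (by omega) g3
    intro x y
    rcases le_total x x₀ with hx | hx
    · by_cases h : ∀ l ∈ ({i ∈ Bl 2 | ht a B i x₀ ≤ y₀} : Finset (Fin n)), ht a B l x < y
      · exact Or.inr (Or.inr (Or.inl h))
      · push Not at h
        obtain ⟨r, hr, hry⟩ := h
        rw [mem_filter] at hr
        refine Or.inr (Or.inl (Or.inr ?_))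
        intro l hl
        rw [mem_filter] at hl
        have h1 := hlt 1 2 (by norm_num) l hl.1 r hr.1
        rw [mv] at hry ⊢
        nlinarith [hl.2, hr.2]
    · by_cases h : ∀ l ∈ ({i ∈ Bl 0 | ht a B i x₀ ≤ y₀} : Finset (Fin n)), ht a B l x < y
      · exact Or.inl (Or.inl h)
      · push Not at h
        obtain ⟨r, hr, hry⟩ := h
        rw [mem_filter] at hr
        refine Or.inr (Or.inl (Or.inr ?_))
        intro l hl
        rw [mem_filter] at hl
        have h1 := hlt 0 1 (by norm_num) r hr.1 l hl.1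
        rw [mv] at hry ⊢
        nlinarith [hl.2, hr.2]
  · -- the middle family is below
    push Not at hab
    apply fin {i ∈ Bl 0 | y₀ ≤ ht a B i x₀} {i ∈ Bl 1 | ht a B i x₀ < y₀}
      {i ∈ Bl 2 | y₀ ≤ ht a B i x₀} (filter_subset _ _) (filter_subset _ _) (filter_subset _ _)
      g2 (by omega) g4
    intro x y
    rcases le_total x x₀ with hx | hx
    · by_cases h : ∀ l ∈ ({i ∈ Bl 0 | y₀ ≤ ht a B i x₀} : Finset (Fin n)), y < ht a B l x
      · exact Or.inl (Or.inr h)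
      · push Not at h
        obtain ⟨r, hr, hry⟩ := h
        rw [mem_filter] at hr
        refine Or.inr (Or.inl (Or.inl ?_))
        intro l hl
        rw [mem_filter] at hl
        have h1 := hlt 0 1 (by norm_num) r hr.1 l hl.1
        rw [mv] at hry ⊢
        nlinarith [hl.2, hr.2]
    · by_cases h : ∀ l ∈ ({i ∈ Bl 2 | y₀ ≤ ht a B i x₀} : Finset (Fin n)), y < ht a B l x
      · exact Or.inr (Or.inr (Or.inr h))
      · push Not at h
        obtain ⟨r, hr, hry⟩ := h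
        rw [mem_filter] at hr
        refine Or.inr (Or.inl (Or.inl ?_))
        intro l hl
        rw [mem_filter] at hl
        have h1 := hlt 1 2 (by norm_num) l hl.1 r hr.1
        rw [mv] at hry ⊢
        nlinarith [hl.2, hr.2]

end Pool.Agent.Q236.HB
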